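import Pool.Agent.Y280.HTyp

/-!
# Typical operators with matrices in a cone have hyperinvariant subspaces
-/

set_option autoImplicit false
open Finset Filter Topology TopologicalSpace Polynomial

namespace Pool.Agent.Q89.HL
open Pool.Agent.Y280

section sep

lemma exists_sep_nearK {N : ℕ} (A : Matrix (Fin N) (Fin N) ℂ) {p : ℝ} (hp : 0 < p) {ε : ℝ}
    (hε : 0 < ε) : ∃ (D : Matrix (Fin N) (Fin N) ℂ) (χ : ℂ[X]), OpM p D ε ∧
      aeval (A + D) χ = 0 ∧ χ.Separable ∧ ∀ i j, ∃ r : ℝ, 0 ≤ r ∧ D i j = r := by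
  obtain ⟨s, hs, hs'⟩ := exists_large_sep A (((N : ℝ) + 1) / ε)
  have hs0 : 0 < s := lt_trans (by positivity) hs
  have hsC : (s : ℂ) ≠ 0 := by exact_mod_cast hs0.ne'
  set B : Matrix (Fin N) (Fin N) ℂ := Matrix.diagonal fun i : Fin N => ((i : ℕ) : ℂ) with hB
  have hBn : OpM p B N := by
    intro x
    rw [mul_sum]
    refine sum_le_sum fun i _ => ?_
    have e : ∑ j, B i j * x j = ((i : ℕ) : ℂ) * x i := by
      rw [sum_eq_single i]
      · rw [hB, Matrix.diagonal_apply_eq]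
      · intro b _ hb
        rw [hB, Matrix.diagonal_apply_ne _ hb.symm, zero_mul]
      · intro h'; exact absurd (mem_univ _) h'
    rw [e, norm_mul, Real.mul_rpow (norm_nonneg _) (norm_nonneg _)]
    refine mul_le_mul_of_nonneg_right (Real.rpow_le_rpow (norm_nonneg _) ?_ hp.le) (by positivity)
    rw [Complex.norm_natCast]
    exact_mod_cast i.2.le
  refine ⟨((s⁻¹ : ℝ) : ℂ) • B, (B + (s : ℂ) • A).charpoly.comp (C (s : ℂ) * X), ?_, ?_,
    sep_comp hs' hsC, ?_⟩
  · refine (hBn.smul (Nat.cast_nonneg N) _).mono hp ?_ ?_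
    · positivity
    · rw [Complex.norm_real, Real.norm_of_nonneg (by positivity), inv_mul_le_iff₀ hs0]
      rw [div_lt_iff₀ hε] at hs
      linarith
  · rw [aeval_comp]
    have e : aeval (A + ((s⁻¹ : ℝ) : ℂ) • B) (C (s : ℂ) * X) = B + (s : ℂ) • A := by
      rw [map_mul, aeval_X, aeval_C, Algebra.algebraMap_eq_smul_one, smul_mul_assoc, one_mul,
        smul_add, smul_smul]
      rw [Complex.ofReal_inv, mul_inv_cancel₀ hsC, one_smul, add_comm]
    rw [e]
    exact Matrix.aeval_self_charpoly _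
  · intro i j
    by_cases hij : i = j
    · refine ⟨s⁻¹ * ((i : ℕ) : ℝ), by positivity, ?_⟩
      rw [hB, Matrix.smul_apply, hij, Matrix.diagonal_apply_eq, smul_eq_mul]
      push_cast
      rfl
    · refine ⟨0, le_rfl, ?_⟩
      rw [hB, Matrix.smul_apply, Matrix.diagonal_apply_ne _ hij, smul_zero]
      simp

end sep

/-- A convex cone in the plane which contains the nonnegative numbers. -/
structure ConeK (K : Set ℂ) : Prop where
  add : ∀ a ∈ K, ∀ b ∈ K, a + b ∈ K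
  smul : ∀ r : ℝ, 0 ≤ r → ∀ a ∈ K, (r : ℂ) * a ∈ K
  nonneg : ∀ r : ℝ, 0 ≤ r → (r : ℂ) ∈ K

variable {E : Type*} [NormedAddCommGroup E] [NormedSpace ℂ E]
variable {β : E → StrongDual ℂ E → Prop} {K : Set ℂ}

/-- The block can be moved a little to make room for many copies of it far away. -/
def ExtK (β : E → StrongDual ℂ E → Prop) (p : ℝ) {N : ℕ} (e : Fin N → E)
    (k : Fin N → StrongDual ℂ E) : Prop :=
  ∀ (n : ℕ) (X : Finset E) (Y : Finset (StrongDual ℂ E)) (ε : ℝ), 0 < ε →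
    ∃ (e' : Fin N × Fin (n + 1) → E) (k' : Fin N × Fin (n + 1) → StrongDual ℂ E), Blk p e' k' ∧
      (∀ z, β (e' z) (k' z)) ∧
      (∀ i, ‖e' (i, 0) - e i‖ ≤ ε) ∧ (∀ i, ‖k' (i, 0) - k i‖ ≤ ε) ∧
      (∀ i a, a ≠ 0 → ∀ x ∈ X, ‖k' (i, a) x‖ ≤ ε) ∧ ∀ i a, a ≠ 0 → ∀ y ∈ Y, ‖y (e' (i, a))‖ ≤ ε

/-- The space is approximated by blocks with room for copies. -/
def BlockSysK (β : E → StrongDual ℂ E → Prop) (p : ℝ) : Prop :=
  ∀ (X : Finset E) (Y : Finset (StrongDual ℂ E)) (ε : ℝ), 0 < ε →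
    ∃ (N : ℕ) (e : Fin N → E) (k : Fin N → StrongDual ℂ E), Blk p e k ∧ (∀ i, β (e i) (k i)) ∧
      ExtK β p e k ∧ (∀ x ∈ X, ‖vecB e (fun i => k i x) - x‖ ≤ ε) ∧
      ∀ y ∈ Y, ‖fnlB k (fun i => y (e i)) - y‖ ≤ ε

variable {W : Type*} [TopologicalSpace W] {Φ : W → E →L[ℂ] E}

/-- The properties of the strong* topology on the set of operators which are used. -/
structure BallK (β : E → StrongDual ℂ E → Prop) (K : Set ℂ) (Φ : W → E →L[ℂ] E) : Prop where
  norm : ∀ w, ‖Φ w‖ ≤ 1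
  ent : ∀ (w : W) (e : E) (k : StrongDual ℂ E) (e' : E) (k' : StrongDual ℂ E), β e k → β e' k' →
    k' (Φ w e) ∈ K
  surj : ∀ {I : Type} [Fintype I] (e : I → E) (k : I → StrongDual ℂ E), (∀ i, β (e i) (k i)) →
    ∀ A : Matrix I I ℂ, (∀ i j, A i j ∈ K) → ‖opB e k A‖ ≤ 1 → ∃ w, Φ w = opB e k A
  conv : ∀ (v : ℕ → W) (v0 : W), Tendsto v atTop (𝓝 v0) →
    (∀ x, Tendsto (fun k => Φ (v k) x) atTop (𝓝 (Φ v0 x))) ∧
      ∀ y : StrongDual ℂ E, Tendsto (fun k => y.comp (Φ (v k))) atTop (𝓝 (y.comp (Φ v0)))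
  nhd : ∀ (w : W) (O : Set W), IsOpen O → w ∈ O → ∃ (X : Finset E) (Y : Finset (StrongDual ℂ E))
    (ε : ℝ), 0 < ε ∧ ∀ w', (∀ x ∈ X, ‖Φ w' x - Φ w x‖ < ε) →
      (∀ y ∈ Y, ‖y.comp (Φ w') - y.comp (Φ w)‖ < ε) → w' ∈ O

lemma big_mem (hK : ConeK K) {I : Type} [Fintype I] [DecidableEq I] {A : Matrix I I ℂ}
    (hA : ∀ i j, A i j ∈ K) {m : ℕ} {δ w : ℝ} (hδ : 0 ≤ δ) (hw : 0 ≤ w) (y z) :
    big A m δ w y z ∈ K := by
  have h0 : (0 : ℂ) ∈ K := by
    have := hK.nonneg 0 le_rfl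
    simpa using this
  unfold big
  rw [Matrix.add_apply]
  refine hK.add _ ?_ _ ?_
  · unfold bigD
    split_ifs
    · exact hA _ _
    · exact h0
  · unfold bigJ
    split_ifs
    · unfold wt
      split_ifs
      · exact hK.nonneg _ hδ
      · exact hK.nonneg _ hw
    · exact h0


section

variable {I : Type} [Fintype I]

/-- **Semicontinuity at operators given by matrices.** -/
theorem mem_interior_HSK {W : Type*} [TopologicalSpace W] [FirstCountableTopology W]
    {Φ : W → E →L[ℂ] E} (h : BallK β K Φ) {p : ℝ} (hp : 0 < p) {e : I → E}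
    {k : I → StrongDual ℂ E} (hb : Blk p e k) {A : Matrix I I ℂ} {w : W} (hw : Φ w = opB e k A)
    {u v : I → ℂ} {ρ : ℝ} (hM : HM p A u v ρ) {x : E} {y : StrongDual ℂ E} {η : ℝ} (hη : 0 < η)
    (hxy : ‖fnlB k v - y‖ * ‖vecB e u‖ + ‖y‖ * ‖vecB e u - x‖ ≤ η) :
    w ∈ interior (HS Φ x y (ρ + 2 * η)) := by
  classical
  rw [mem_interior_iff_mem_nhds]
  by_contra hcon
  have h1 : ∃ᶠ v in 𝓝 w, ¬ HC (Φ v) x y (ρ + 2 * η) := by
    intro hc
    exact hcon (hc.mono fun v hv => not_not.1 hv)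
  obtain ⟨z, hz, hz'⟩ := exists_seq_forall_of_frequently h1
  obtain ⟨hc1, hc2⟩ := h.conv z w hz
  have hS : ∀ n, ∃ S : E →L[ℂ] E, S * Φ (z n) = Φ (z n) * S ∧ ‖S‖ ≤ 1 ∧
      ρ + 2 * η < ‖y (S x)‖ := by
    intro n
    have := hz' n
    unfold HC at this
    push Not at this
    exact this
  choose S hS1 hS2 hS3 using hS
  set Bn : ℕ → Matrix I I ℂ := fun n => mat e k (S n) with hBn
  have hBn1 : ∀ n, OpM p (Bn n) 1 := fun n => hb.OpM_mat hp zero_le_one (hS2 n)
  obtain ⟨B, φ, hφ, hent⟩ := exists_lim hp Bn hBn1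
  have hB1 : OpM p B 1 := by
    intro a
    refine le_of_tendsto (f := fun n => ∑ i, ‖∑ j, Bn (φ n) i j * a j‖ ^ p) (x := atTop) ?_
      (Eventually.of_forall fun n => hBn1 (φ n) a)
    refine tendsto_finsetSum _ fun i _ => Tendsto.rpow_const ?_ (Or.inr hp.le)
    exact (tendsto_finsetSum _ fun j _ => (hent i j).mul_const _).norm
  have hAB : A * B = B * A := by
    rw [← sub_eq_zero]
    ext i j
    -- entries
    set T := opB e k A with hT
    have e1 : ∀ n, (A * Bn n - Bn n * A) i j = k i ((T * S n - S n * T) (e j)) := by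
      intro n
      rw [Matrix.sub_apply, _root_.sub_apply, map_sub, mul_apply_eq_comp, mul_apply_eq_comp]
      congr 1
      · rw [Matrix.mul_apply, hT, hb.k_opB]
        rfl
      · have h2 : T (e j) = ∑ l, A l j • e l := by
          rw [hT, opB_apply]
          refine sum_congr rfl fun l _ => ?_
          congr 1
          rw [sum_eq_single j]
          · rw [hb.hke, if_pos rfl, mul_one]
          · intro b _ hb'
            rw [hb.hke, if_neg hb', mul_zero]
          · intro h'; exact absurd (mem_univ _) h'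
        rw [h2, Matrix.mul_apply, map_sum, map_sum]
        refine sum_congr rfl fun l _ => ?_
        rw [map_smul, map_smul, smul_eq_mul, mul_comm]
        rfl
    have e2 : ∀ n, T * S n - S n * T =
        (T - Φ (z n)) * S n - S n * (T - Φ (z n)) := by
      intro n
      rw [sub_mul, mul_sub, hS1 n]
      abel
    have hl1 : Tendsto (fun n => (A * Bn (φ n) - Bn (φ n) * A) i j) atTop
        (𝓝 ((A * B - B * A) i j)) := by
      simp only [Matrix.sub_apply, Matrix.mul_apply]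
      refine Tendsto.sub ?_ ?_
      · exact tendsto_finsetSum _ fun l _ => (hent l j).const_mul _
      · exact tendsto_finsetSum _ fun l _ => (hent i l).mul_const _
    have hl2 : Tendsto (fun n => (A * Bn (φ n) - Bn (φ n) * A) i j) atTop (𝓝 0) := by
      rw [tendsto_zero_iff_norm_tendsto_zero]
      have b1 : Tendsto (fun n => ‖(k i).comp (Φ (z (φ n))) - (k i).comp (Φ w)‖ * ‖e j‖ +
          ‖k i‖ * ‖Φ (z (φ n)) (e j) - Φ w (e j)‖) atTop (𝓝 (0 * ‖e j‖ + ‖k i‖ * 0)) :=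
        (((tendsto_iff_norm_sub_tendsto_zero.1 (hc2 (k i))).comp hφ.tendsto_atTop).mul_const
          _).add (((tendsto_iff_norm_sub_tendsto_zero.1 (hc1 (e j))).comp
            hφ.tendsto_atTop).const_mul _)
      rw [zero_mul, mul_zero, add_zero] at b1
      refine squeeze_zero (fun _ => norm_nonneg _) (fun n => ?_) b1
      rw [e1, e2, _root_.sub_apply, map_sub, mul_apply_eq_comp, mul_apply_eq_comp]
      refine (norm_sub_le _ _).trans (add_le_add ?_ ?_)
      · have e3 : k i ((T - Φ (z (φ n))) (S (φ n) (e j))) =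
            -(((k i).comp (Φ (z (φ n))) - (k i).comp (Φ w)) (S (φ n) (e j))) := by
          rw [hw, _root_.sub_apply, _root_.sub_apply, map_sub, ContinuousLinearMap.comp_apply,
            ContinuousLinearMap.comp_apply]
          ring
        rw [e3, norm_neg]
        refine (ContinuousLinearMap.le_opNorm _ _).trans
          (mul_le_mul_of_nonneg_left ?_ (norm_nonneg _))
        exact ((S (φ n)).le_opNorm _).trans (mul_le_of_le_one_left (norm_nonneg _) (hS2 _))
      · refine (norm_pair_le (hS2 (φ n)) _ _).trans_eq ?_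
        rw [hw, _root_.sub_apply, norm_sub_rev]
    rw [tendsto_nhds_unique hl1 hl2]
    rfl
  have h2 := hM B hAB hB1
  have h3 : Tendsto (fun n => ‖bil v (Bn (φ n)) u‖) atTop (𝓝 ‖bil v B u‖) := by
    unfold bil
    exact (tendsto_finsetSum _ fun i _ => tendsto_finsetSum _ fun j _ =>
      ((hent i j).mul_const _).const_mul _).norm
  have h4 : ρ + η ≤ ‖bil v B u‖ := by
    refine ge_of_tendsto' h3 fun n => ?_
    have e1 : bil v (Bn (φ n)) u = fnlB k v (S (φ n) (vecB e u)) := Blk.bil_mat v u (S (φ n))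
    rw [e1]
    have h5 := hS3 (φ n)
    have h6 := pair_diff (hS2 (φ n)) x (vecB e u) y (fnlB k v)
    have h7 := norm_sub_norm_le (y (S (φ n) x)) (fnlB k v (S (φ n) (vecB e u)))
    rw [norm_sub_rev] at h7
    linarith
  linarith


end

/-- Operators with a diagonalisable block matrix are dense. -/
lemma exists_blk_opK {p : ℝ} (hp1 : 1 ≤ p) (hK : ConeK K) (hE : BlockSysK β p)
    (h : BallK β K Φ) {O : Set W}
    (hO : IsOpen O) {w0 : W} (hw0 : w0 ∈ O) (x : E) (y : StrongDual ℂ E) {ε : ℝ} (hε : 0 < ε) :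
    ∃ w1 ∈ O, ∃ (N : ℕ) (e : Fin N → E) (k : Fin N → StrongDual ℂ E), Blk p e k ∧
      (∀ i, β (e i) (k i)) ∧ ExtK β p e k ∧
      ‖vecB e (fun i => k i x) - x‖ ≤ ε ∧ ‖fnlB k (fun i => y (e i)) - y‖ ≤ ε ∧
      ∃ (A : Matrix (Fin N) (Fin N) ℂ) (r : ℝ) (χ : ℂ[X]), 0 ≤ r ∧ r < 1 ∧ OpM p A r ∧
        aeval A χ = 0 ∧ χ.Separable ∧ (∀ i j, A i j ∈ K) ∧ Φ w1 = opB e k A := by
  classical
  have hp : 0 < p := by linarith
  obtain ⟨X, Y, ε1, hε1, hnear⟩ := h.nhd w0 O hO hw0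
  set T := Φ w0 with hT
  have hT1 : ‖T‖ ≤ 1 := h.norm w0
  set M : ℝ := ∑ x ∈ X, ‖x‖ + ∑ y ∈ Y, ‖y‖ + 1 with hM
  have hMX : ∀ x ∈ X, ‖x‖ ≤ M := by
    intro x hx
    have h1 := single_le_sum (f := fun x : E => ‖x‖) (fun _ _ => norm_nonneg _) hx
    have h2 : 0 ≤ ∑ y ∈ Y, ‖y‖ := sum_nonneg fun _ _ => norm_nonneg _
    rw [hM]
    linarith
  have hMY : ∀ y ∈ Y, ‖y‖ ≤ M := by
    intro y hy
    have h1 := single_le_sum (f := fun y : StrongDual ℂ E => ‖y‖) (fun _ _ => norm_nonneg _) hy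
    have h2 : 0 ≤ ∑ x ∈ X, ‖x‖ := sum_nonneg fun _ _ => norm_nonneg _
    rw [hM]
    linarith
  have hM0 : 0 < M := by
    have h1 : 0 ≤ ∑ x ∈ X, ‖x‖ := sum_nonneg fun _ _ => norm_nonneg _
    have h2 : 0 ≤ ∑ y ∈ Y, ‖y‖ := sum_nonneg fun _ _ => norm_nonneg _
    rw [hM]
    linarith
  set τ : ℝ := min (1 / 2) (ε1 / (8 * M)) with hτ
  have hτ0 : 0 < τ := lt_min (by norm_num) (by positivity)
  have hτ1 : τ ≤ 1 / 2 := min_le_left _ _
  have hτM : τ * M ≤ ε1 / 8 := by
    have : τ ≤ ε1 / (8 * M) := min_le_right _ _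
    rw [le_div_iff₀ (by positivity)] at this
    linarith
  set ε2 : ℝ := min ε (ε1 / 8) with hε2
  have hε20 : 0 < ε2 := lt_min hε (by positivity)
  obtain ⟨N, e, k, hb, hβ, hext, hX, hY⟩ := hE (insert x (X ∪ X.image fun x => T x))
    (insert y (Y ∪ Y.image fun y => y.comp T)) ε2 hε20
  set A0 : Matrix (Fin N) (Fin N) ℂ := (((1 - τ : ℝ)) : ℂ) • mat e k T with hA0
  obtain ⟨D, χ, hD, hχ, hs, hDnn⟩ := exists_sep_nearK A0 hp (show 0 < τ / 2 by positivity)
  have hA0n : OpM p A0 (1 - τ) := by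
    have h1 := (hb.OpM_mat hp zero_le_one hT1).smul zero_le_one (((1 - τ : ℝ)) : ℂ)
    rwa [Complex.norm_real, Real.norm_of_nonneg (by linarith), mul_one] at h1
  have hAn : OpM p (A0 + D) (1 - τ / 2) := by
    have h1 := OpM.add hp1 (by linarith) (by positivity) hA0n hD
    have e1 : 1 - τ + τ / 2 = 1 - τ / 2 := by ring
    rwa [e1] at h1
  have hnorm : ‖opB e k (A0 + D)‖ ≤ 1 - τ / 2 := hb.norm_opB hp (by linarith) hAn
  have hAK : ∀ i j, (A0 + D) i j ∈ K := by
    intro i j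
    rw [Matrix.add_apply]
    refine hK.add _ ?_ _ ?_
    · rw [hA0, Matrix.smul_apply, smul_eq_mul]
      exact hK.smul (1 - τ) (by linarith) _ (h.ent w0 _ _ _ _ (hβ j) (hβ i))
    · obtain ⟨r, hr, hr'⟩ := hDnn i j
      rw [hr']
      exact hK.nonneg r hr
  obtain ⟨w1, hw1⟩ := h.surj e k hβ (A0 + D) hAK (hnorm.trans (by linarith))
  have hDn : ‖opB e k D‖ ≤ τ / 2 := hb.norm_opB hp (by positivity) hD
  have hsm : opB e k (A0 + D) = (((1 - τ : ℝ)) : ℂ) • opB e k (mat e k T) + opB e k D := by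
    rw [opB_add, hA0, opB_smul]
  have hτn : ‖((((1 - τ : ℝ)) : ℂ) - 1)‖ = τ := by
    have e1 : (((1 - τ : ℝ)) : ℂ) - 1 = ((-τ : ℝ) : ℂ) := by push_cast; ring
    rw [e1, Complex.norm_real, norm_neg, Real.norm_of_nonneg hτ0.le]
  have hcn : ‖opB e k (mat e k T)‖ ≤ 1 := hb.norm_opB hp zero_le_one
    (hb.OpM_mat hp zero_le_one hT1)
  refine ⟨w1, ?_, N, e, k, hb, hβ, hext, ?_, ?_, A0 + D, 1 - τ / 2, χ, by linarith, by linarith,
    hAn, hχ, hs, hAK, hw1⟩
  · apply hnear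
    · intro z hz
      rw [hw1, hsm]
      have h1 := compr_x hb hp hT1 (hX z (by simp [hz]))
        (hX (T z) (mem_insert_of_mem (mem_union_right _ (mem_image_of_mem _ hz))))
      have e1 : ((((1 - τ : ℝ)) : ℂ) • opB e k (mat e k T) + opB e k D) z - T z =
          ((((1 - τ : ℝ)) : ℂ) - 1) • opB e k (mat e k T) z + opB e k D z +
            (opB e k (mat e k T) z - T z) := by
        rw [_root_.add_apply, _root_.smul_apply, sub_smul, one_smul]
        abel
      rw [e1]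
      refine (norm_add₃_le).trans_lt ?_
      rw [norm_smul, hτn]
      have b1 : ‖opB e k (mat e k T) z‖ ≤ M :=
        ((opB e k (mat e k T)).le_opNorm z).trans
          ((mul_le_of_le_one_left (norm_nonneg _) hcn).trans (hMX z hz))
      have b2 : ‖opB e k D z‖ ≤ τ / 2 * M :=
        ((opB e k D).le_opNorm z).trans (mul_le_mul hDn (hMX z hz) (norm_nonneg _)
          (by positivity))
      have b3 : τ * ‖opB e k (mat e k T) z‖ ≤ τ * M := mul_le_mul_of_nonneg_left b1 hτ0.le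
      have b4 : ε2 ≤ ε1 / 8 := min_le_right _ _
      linarith
    · intro z hz
      rw [hw1, hsm]
      have h1 := compr_y hb hp hT1 hε20.le (hY z (by simp [hz]))
        (hY (z.comp T) (mem_insert_of_mem (mem_union_right _ (mem_image_of_mem _ hz))))
      have e1 : z.comp ((((1 - τ : ℝ)) : ℂ) • opB e k (mat e k T) + opB e k D) - z.comp T =
          ((((1 - τ : ℝ)) : ℂ) - 1) • z.comp (opB e k (mat e k T)) + z.comp (opB e k D) +
            (z.comp (opB e k (mat e k T)) - z.comp T) := by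
        ext a
        simp only [ContinuousLinearMap.comp_apply, _root_.add_apply, _root_.sub_apply,
          _root_.smul_apply, map_add, map_smul, smul_eq_mul]
        ring
      rw [e1]
      refine (norm_add₃_le).trans_lt ?_
      rw [norm_smul, hτn]
      have b1 : ‖z.comp (opB e k (mat e k T))‖ ≤ M :=
        (ContinuousLinearMap.opNorm_comp_le _ _).trans
          ((mul_le_of_le_one_right (norm_nonneg _) hcn).trans (hMY z hz))
      have b2 : ‖z.comp (opB e k D)‖ ≤ M * (τ / 2) :=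
        (ContinuousLinearMap.opNorm_comp_le _ _).trans (mul_le_mul (hMY z hz) hDn (norm_nonneg _)
          hM0.le)
      have b3 : τ * ‖z.comp (opB e k (mat e k T))‖ ≤ τ * M :=
        mul_le_mul_of_nonneg_left b1 hτ0.le
      have b4 : ε2 ≤ ε1 / 8 := min_le_right _ _
      linarith
  · exact (hX x (mem_insert_self _ _)).trans (min_le_left _ _)
  · exact (hY y (mem_insert_self _ _)).trans (min_le_left _ _)


theorem step_hypK [FirstCountableTopology W] {p q : ℝ} (hpq : p.HolderConjugate q)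
    (hK : ConeK K) (hE : BlockSysK β p) (h : BallK β K Φ) {x : E} {y : StrongDual ℂ E}
    {ρ : ℝ} (hρ : 0 < ρ) {w0 : W} (hw0 : w0 ∈ interior (HS Φ x y ρ)) {V : Set W} (hV : IsOpen V)
    (hwV : w0 ∈ V) {d : ℕ → E} (hd : DenseRange d) {d' : ℕ → StrongDual ℂ E}
    (hd' : DenseRange d') {ε : ℝ} (hε : 0 < ε) (x0 : E) :
    ∃ w2 ∈ V, ∃ i j : ℕ, w2 ∈ interior (HS Φ (d i) (d' j) ε) ∧
      ‖d i - x‖ ≤ (2 * ρ) ^ (1 / p) + ε ∧ ‖d' j - y‖ ≤ (2 * ρ) ^ (1 / q) + ε ∧
      ‖d' j x0 - y x0‖ ≤ ε := by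
  classical
  have hp := hpq.pos
  have hp1 : 1 ≤ p := hpq.lt.le
  -- a block operator
  set ε1 : ℝ := min (ε / 8 / (1 + ‖x0‖)) (ρ / (1 + ‖x‖ + ‖y‖)) with hε1
  have hε10 : 0 < ε1 := lt_min (by positivity) (by positivity)
  have hε1a : ε1 * (1 + ‖x0‖) ≤ ε / 8 := by
    have : ε1 ≤ ε / 8 / (1 + ‖x0‖) := min_le_left _ _
    rwa [le_div_iff₀ (by positivity)] at this
  have hε1b : ε1 * (1 + ‖x‖ + ‖y‖) ≤ ρ := by
    have : ε1 ≤ ρ / (1 + ‖x‖ + ‖y‖) := min_le_right _ _
    rwa [le_div_iff₀ (by positivity)] at this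
  have hε1c : ε1 ≤ ε / 8 := by
    have := norm_nonneg x0
    nlinarith
  have hOo : IsOpen (interior (HS Φ x y ρ) ∩ V) := isOpen_interior.inter hV
  obtain ⟨w1, hw1, N, e, k, hb, hβ, hext, hx, hy, A, r, χ, hr0, hr1, hA, hχ, hs, hAK, hwA⟩ :=
    exists_blk_opK hp1 hK hE h hOo (show w0 ∈ _ from ⟨hw0, hwV⟩) x y hε10
  set u : Fin N → ℂ := fun i => k i x with hu
  set v : Fin N → ℂ := fun i => y (e i) with hv
  have hHM : HM p A u v (2 * ρ) := by
    apply hb.HM_of_HC hp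
    have h1 : HC (Φ w1) x y ρ := interior_subset hw1.1
    rw [hwA] at h1
    refine (h1.lip (x' := vecB e u) (y' := fnlB k v)).mono ?_
    have h2 : ‖vecB e u‖ ≤ ‖x‖ := hb.norm_R hp x
    have h3 : ‖fnlB k v - y‖ * ‖vecB e u‖ ≤ ε1 * ‖x‖ :=
      mul_le_mul hy h2 (norm_nonneg _) hε10.le
    have h4 : ‖y‖ * ‖vecB e u - x‖ ≤ ‖y‖ * ε1 := mul_le_mul_of_nonneg_left hx (norm_nonneg _)
    nlinarith
  -- the functional on the commutant
  obtain ⟨m, U, Vv, hm, hU, hVv, hrep⟩ := rep_pos hp hpq.symm.pos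
    (exists_rep hpq (show 0 < 2 * ρ by positivity) hHM (show 0 < ε / 32 by positivity))
  set w : ℝ := (1 - r) / 2 with hw
  have hwp : 0 < w := by rw [hw]; linarith
  obtain ⟨δ₀, hδ₀, hbig⟩ := big_HM hp hχ hs (show 0 < ε / 32 by positivity) hrep hwp
  -- the neighbourhood of `w1`
  obtain ⟨X, Y, ε4, hε4, hnear⟩ := h.nhd w1 _ hOo hw1
  set c : ℝ := ((N * (m + 2) : ℕ) : ℝ) ^ 2 with hc
  have hc0 : 0 ≤ c := by positivity
  set M : ℝ := ∑ x ∈ X, ‖x‖ + ∑ y ∈ Y, ‖y‖ + 1 with hM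
  have hMX : ∀ x ∈ X, ‖x‖ ≤ M := by
    intro x hx
    have h1 := single_le_sum (f := fun x : E => ‖x‖) (fun _ _ => norm_nonneg _) hx
    have h2 : 0 ≤ ∑ y ∈ Y, ‖y‖ := sum_nonneg fun _ _ => norm_nonneg _
    rw [hM]
    linarith
  have hMY : ∀ y ∈ Y, ‖y‖ ≤ M := by
    intro y hy
    have h1 := single_le_sum (f := fun y : StrongDual ℂ E => ‖y‖) (fun _ _ => norm_nonneg _) hy
    have h2 : 0 ≤ ∑ x ∈ X, ‖x‖ := sum_nonneg fun _ _ => norm_nonneg _
    rw [hM]
    linarith
  have hM0 : 0 ≤ M := by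
    have h1 : 0 ≤ ∑ x ∈ X, ‖x‖ := sum_nonneg fun _ _ => norm_nonneg _
    have h2 : 0 ≤ ∑ y ∈ Y, ‖y‖ := sum_nonneg fun _ _ => norm_nonneg _
    rw [hM]
    linarith
  -- the small weight
  obtain ⟨δ1, hδ10, hδ1, _⟩ := exists_small (a := c * M) (b := ε4 / 4) (by positivity)
    (by positivity)
  set δ : ℝ := min δ1 (min δ₀ w) with hδ
  have hδ0 : 0 < δ := lt_min hδ10 (lt_min hδ₀ hwp)
  have hδa : δ * (c * M) ≤ ε4 / 4 :=
    (mul_le_mul_of_nonneg_right (min_le_left _ _) (by positivity)).trans hδ1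
  have hδb : δ ≤ δ₀ := (min_le_right _ _).trans (min_le_left _ _)
  have hδc : δ ≤ w := (min_le_right _ _).trans (min_le_right _ _)
  have hHB := hbig δ hδ0 hδb
  have hOpB : OpM p (big A m δ w) (r + w) := OpM_big hp1 hr0 hA m hδ0.le hδc
  have hrw : r + w ≤ 1 := by rw [hw]; linarith
  have hOpB1 : OpM p (big A m δ w) 1 := hOpB.mono hp (by linarith) hrw
  -- the small number
  set KK : ℝ := c * (1 + 2 * M) + ∑ i, ‖u i‖ + (∑ i, ‖v i‖) * (1 + ‖x0‖) +
    ∑ b, ∑ i, ‖Vv b i‖ with hKK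
  have hK0 : 0 ≤ KK := by
    have h1 : 0 ≤ ∑ i, ‖u i‖ := sum_nonneg fun _ _ => norm_nonneg _
    have h2 : 0 ≤ ∑ i, ‖v i‖ := sum_nonneg fun _ _ => norm_nonneg _
    have h3 : 0 ≤ ∑ b, ∑ i, ‖Vv b i‖ := sum_nonneg fun _ _ => sum_nonneg fun _ _ => norm_nonneg _
    positivity
  obtain ⟨ε', hε'0, hε'1, _⟩ := exists_small (a := KK) (b := min (ε4 / 4) (ε / 16)) hK0
    (lt_min (by positivity) (by positivity))
  have hε'2 : ε' * KK ≤ ε4 / 4 := hε'1.trans (min_le_left _ _)
  have hε'3 : ε' * KK ≤ ε / 16 := hε'1.trans (min_le_right _ _)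
  have hsu : 0 ≤ ∑ i, ‖u i‖ := sum_nonneg fun _ _ => norm_nonneg _
  have hsv : 0 ≤ ∑ i, ‖v i‖ := sum_nonneg fun _ _ => norm_nonneg _
  have hsV : 0 ≤ ∑ b, ∑ i, ‖Vv b i‖ := sum_nonneg fun _ _ => sum_nonneg fun _ _ => norm_nonneg _
  have hsvx : 0 ≤ (∑ i, ‖v i‖) * ‖x0‖ := by positivity
  have hcM : 0 ≤ c * (1 + 2 * M) := by positivity
  obtain ⟨e', k', hb', hβ', he', hk', hfx, hfy⟩ := hext (m + 1) (insert x0 X) Y ε' hε'0
  set T3 := opB e' k' (big A m δ w) with hT3
  have hT3n : ‖T3‖ ≤ 1 := hb'.norm_opB hp zero_le_one hOpB1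
  obtain ⟨w3, hw3⟩ := h.surj e' k' hβ' (big A m δ w) (big_mem hK hAK hδ0.le hwp.le) hT3n
  have hent : ∀ y z, ‖big A m δ w y z‖ ≤ 1 := fun y z => hOpB1.entry hp zero_le_one y z
  have hw3O : w3 ∈ interior (HS Φ x y ρ) ∩ V := by
    apply hnear
    · intro z hz
      rw [hw3, hwA]
      have h1 := close_x hp hb hb' hm hδ0.le hε'0.le hent he' hk' (x := z)
        (fun i a ha => hfx i a ha z (mem_insert_of_mem hz))
      refine h1.trans_lt ?_
      rw [← hc]
      have h2 : c * (ε' + (δ + 2 * ε') * ‖z‖) ≤ c * (ε' + (δ + 2 * ε') * M) := by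
        refine mul_le_mul_of_nonneg_left ?_ hc0
        have := mul_le_mul_of_nonneg_left (hMX z hz) (show 0 ≤ δ + 2 * ε' by positivity)
        linarith
      have h3 : c * (ε' + (δ + 2 * ε') * M) = δ * (c * M) + ε' * (c * (1 + 2 * M)) := by ring
      have h4 : ε' * (c * (1 + 2 * M)) ≤ ε' * KK := by
        refine mul_le_mul_of_nonneg_left ?_ hε'0.le
        rw [hKK]
        nlinarith
      linarith
    · intro z hz
      rw [hw3, hwA]
      have h1 := close_y (δ := δ) (w := w) hp hb hb' hε'0.le hent he' hk' (f := z)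
        (fun i a ha => hfy i a ha z hz)
      refine h1.trans_lt ?_
      rw [← hc]
      have h2 : c * (ε' + 2 * ε' * ‖z‖) ≤ c * (ε' + 2 * ε' * M) := by
        refine mul_le_mul_of_nonneg_left ?_ hc0
        have := mul_le_mul_of_nonneg_left (hMY z hz) (show 0 ≤ 2 * ε' by positivity)
        linarith
      have h3 : c * (ε' + 2 * ε' * M) = ε' * (c * (1 + 2 * M)) := by ring
      have h4 : ε' * (c * (1 + 2 * M)) ≤ ε' * KK := by
        refine mul_le_mul_of_nonneg_left ?_ hε'0.le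
        rw [hKK]
        nlinarith
      linarith
  -- the new pair
  set x' := vecB e' (uu u U) with hx'
  set y' := fnlB k' (uu v fun b i => -Vv b i) with hy'
  have hVn : ∑ b, ∑ i, ‖-Vv b i‖ ^ q ≤ 2 * ρ := by simpa using hVv
  have b1 : ‖x' - x‖ ≤ (2 * ρ) ^ (1 / p) + ε / 4 := by
    have h1 := near_x hp hb' he' u U hU
    have h2 : (∑ i, ‖u i‖) * ε' ≤ ε / 16 := by
      refine le_trans ?_ hε'3
      rw [mul_comm]
      refine mul_le_mul_of_nonneg_left ?_ hε'0.le
      rw [hKK]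
      nlinarith
    have e1 : x' - x = (x' - vecB e u) + (vecB e u - x) := by abel
    rw [e1]
    refine (norm_add_le _ _).trans ?_
    linarith
  have b2 : ‖y' - y‖ ≤ (2 * ρ) ^ (1 / q) + ε / 4 := by
    have h1 := near_y hpq hb' hk' v (fun b i => -Vv b i) hVn
    have h2 : (∑ i, ‖v i‖) * ε' ≤ ε / 16 := by
      refine le_trans ?_ hε'3
      rw [mul_comm]
      refine mul_le_mul_of_nonneg_left ?_ hε'0.le
      rw [hKK]
      nlinarith
    have e1 : y' - y = (y' - fnlB k v) + (fnlB k v - y) := by abel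
    rw [e1]
    refine (norm_add_le _ _).trans ?_
    linarith
  have b3 : ‖y' x0 - y x0‖ ≤ ε / 4 := by
    have h1 := near_yx hk' (x := x0) (fun i a ha => hfx i a ha x0 (mem_insert_self _ _)) v
      (fun b i => -Vv b i)
    simp only [norm_neg] at h1
    have h2 : (∑ i, ‖v i‖) * ε' * ‖x0‖ + (∑ b, ∑ i, ‖Vv b i‖) * ε' ≤ ε / 16 := by
      refine le_trans ?_ hε'3
      have h3 : (∑ i, ‖v i‖) * ε' * ‖x0‖ + (∑ b, ∑ i, ‖Vv b i‖) * ε' =
          ε' * ((∑ i, ‖v i‖) * ‖x0‖ + ∑ b, ∑ i, ‖Vv b i‖) := by ring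
      rw [h3]
      refine mul_le_mul_of_nonneg_left ?_ hε'0.le
      rw [hKK]
      nlinarith
    have h4 : ‖(fnlB k v - y) x0‖ ≤ ε1 * (1 + ‖x0‖) := by
      refine ((fnlB k v - y).le_opNorm x0).trans ?_
      refine mul_le_mul hy (by linarith) (norm_nonneg _) hε10.le
    have e1 : y' x0 - y x0 = (y' x0 - fnlB k v x0) + (fnlB k v - y) x0 := by
      rw [_root_.sub_apply]; ring
    rw [e1]
    refine (norm_add_le _ _).trans ?_
    linarith
  -- the dense sets
  set δ' : ℝ := min (min (ε / 4) (ε / 4 / (‖x0‖ + 1))) (min 1 (ε / 8 / (‖y'‖ + ‖x'‖ + 1))) with hδ'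
  have hδ'0 : 0 < δ' := by
    rw [hδ']
    exact lt_min (lt_min (by positivity) (by positivity)) (lt_min one_pos (by positivity))
  have hδ'1 : δ' ≤ ε / 4 := (min_le_left _ _).trans (min_le_left _ _)
  have hδ'2 : δ' * (‖x0‖ + 1) ≤ ε / 4 := by
    have : δ' ≤ ε / 4 / (‖x0‖ + 1) := (min_le_left _ _).trans (min_le_right _ _)
    rwa [le_div_iff₀ (by positivity)] at this
  have hδ'3 : δ' ≤ 1 := (min_le_right _ _).trans (min_le_left _ _)
  have hδ'4 : δ' * (‖y'‖ + ‖x'‖ + 1) ≤ ε / 8 := by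
    have : δ' ≤ ε / 8 / (‖y'‖ + ‖x'‖ + 1) := (min_le_right _ _).trans (min_le_right _ _)
    rwa [le_div_iff₀ (by positivity)] at this
  obtain ⟨i, hi⟩ := hd.exists_dist_lt x' hδ'0
  obtain ⟨j, hj⟩ := hd'.exists_dist_lt y' hδ'0
  rw [dist_eq_norm] at hi hj
  have hi' : ‖d i - x'‖ < δ' := by rwa [norm_sub_rev] at hi
  have hj' : ‖d' j - y'‖ < δ' := by rwa [norm_sub_rev] at hj
  refine ⟨w3, hw3O.2, i, j, ?_, ?_, ?_, ?_⟩
  · have h1 : w3 ∈ interior (HS Φ (d i) (d' j) (2 * (ε / 32) + 2 * (ε / 4))) := by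
      refine mem_interior_HSK h hp hb' hw3 hHB (by positivity) ?_
      rw [← hx', ← hy']
      have h2 : ‖d' j‖ ≤ ‖y'‖ + 1 := by
        have : d' j = y' + (d' j - y') := by abel
        rw [this]
        exact (norm_add_le _ _).trans (by linarith)
      have h3 : ‖y' - d' j‖ * ‖x'‖ ≤ δ' * ‖x'‖ := mul_le_mul_of_nonneg_right hj.le (norm_nonneg _)
      have h4 : ‖d' j‖ * ‖x' - d i‖ ≤ (‖y'‖ + 1) * δ' :=
        mul_le_mul h2 hi.le (norm_nonneg _) (by positivity)
      linarith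
    refine interior_mono ?_ h1
    intro w' hw'
    exact HC.mono hw' (by linarith)
  · have e1 : d i - x = (x' - x) + (d i - x') := by abel
    rw [e1]
    exact (norm_add_le _ _).trans (by linarith)
  · have e1 : d' j - y = (y' - y) + (d' j - y') := by abel
    rw [e1]
    exact (norm_add_le _ _).trans (by linarith)
  · have e1 : d' j x0 - y x0 = (y' x0 - y x0) + (d' j - y') x0 := by
      rw [_root_.sub_apply]
      ring
    rw [e1]
    refine (norm_add_le _ _).trans ?_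
    have h1 : ‖(d' j - y') x0‖ ≤ δ' * (‖x0‖ + 1) := by
      refine ((d' j - y').le_opNorm _).trans ?_
      exact mul_le_mul hj'.le (by linarith) (norm_nonneg _) hδ'0.le
    linarith


/-- **Typical contractions have dense vectors which are not cyclic for the commutant.** -/
theorem typ_hypK [CompleteSpace E] [Nontrivial E] [SeparableSpace E]
    [SeparableSpace (StrongDual ℂ E)] [FirstCountableTopology W] {p q : ℝ}
    (hq : p.HolderConjugate q) (hK : ConeK K) (hE : BlockSysK β p)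
    (h : BallK β K Φ) :
    {w | GoodH (Φ w)} ∈ residual W := by
  classical
  have hp := hq.pos
  have : Nonempty E := ⟨0⟩
  have : Nonempty (StrongDual ℂ E) := ⟨0⟩
  set d := denseSeq E with hd_def
  set d' := denseSeq (StrongDual ℂ E) with hd'_def
  have hd : DenseRange d := denseRange_denseSeq _
  have hd' : DenseRange d' := denseRange_denseSeq _
  set U : ℕ → ℕ → ℝ → Set W := fun i j ρ => interior (HS Φ (d i) (d' j) ρ) with hU
  set rr : ℕ → ℝ := fun a => 1 / ((a : ℝ) + 1) with hrr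
  have hrr0 : ∀ a, 0 < rr a := fun a => by simp only [hrr]; positivity
  set O : ℕ → ℕ → ℕ → ℕ → ℕ → Set W := fun i j a b l =>
    ⋃ (i' : ℕ) (j' : ℕ) (_ : ‖d i' - d i‖ ≤ (2 * rr a) ^ (1 / p) + rr b ∧
      ‖d' j' - d' j‖ ≤ (2 * rr a) ^ (1 / q) + rr b ∧ ‖d' j' (d l) - d' j (d l)‖ ≤ rr b),
      U i' j' (rr b) with hO
  have hGmem : ∀ i j a b l, O i j a b l ∪ (closure (U i j (rr a)))ᶜ ∈ residual W := by
    intro i j a b l
    apply residual_of_dense_open
    · refine IsOpen.union ?_ isClosed_closure.isOpen_compl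
      exact isOpen_iUnion fun i' => isOpen_iUnion fun j' => isOpen_iUnion fun _ =>
        isOpen_interior
    · rw [dense_iff_inter_open]
      intro V hV hVne
      by_cases hVU : (V ∩ U i j (rr a)).Nonempty
      · obtain ⟨w0, hw0V, hw0U⟩ := hVU
        obtain ⟨w2, hw2V, i', j', h1, h2, h3, h4⟩ := step_hypK hq hK hE h (hrr0 a) hw0U hV hw0V
          hd hd' (hrr0 b) (d l)
        refine ⟨w2, hw2V, Or.inl ?_⟩
        simp only [hO, Set.mem_iUnion]
        exact ⟨i', j', ⟨h2, h3, h4⟩, h1⟩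
      · obtain ⟨w0, hw0⟩ := hVne
        refine ⟨w0, hw0, Or.inr ?_⟩
        intro hcl
        exact hVU (mem_closure_iff.1 hcl V hV hw0)
  have hG : ∀ᶠ w in residual W, ∀ i j a b l, w ∈ O i j a b l ∪ (closure (U i j (rr a)))ᶜ := by
    rw [eventually_countable_forall]; intro i
    rw [eventually_countable_forall]; intro j
    rw [eventually_countable_forall]; intro a
    rw [eventually_countable_forall]; intro b
    rw [eventually_countable_forall]; intro l
    exact hGmem i j a b l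
  filter_upwards [hG] with w hw
  set T := Φ w with hT
  intro x₀ ε hε
  -- a nonzero vector of the dense sequence
  obtain ⟨l, hl0, hlx⟩ : ∃ l, d l ≠ 0 ∧ ‖d l - x₀‖ < ε / 2 := by
    have hop : IsOpen ({z : E | z ≠ 0} ∩ Metric.ball x₀ (ε / 2)) :=
      isOpen_ne.inter Metric.isOpen_ball
    have hne : ({z : E | z ≠ 0} ∩ Metric.ball x₀ (ε / 2)).Nonempty := by
      by_cases hx : x₀ = 0
      · obtain ⟨z, hz⟩ := exists_ne (0 : E)
        have hz0 : 0 < ‖z‖ := norm_pos_iff.2 hz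
        refine ⟨((ε / 4 / ‖z‖ : ℝ) : ℂ) • z, ?_, ?_⟩
        · exact smul_ne_zero (by rw [Ne, Complex.ofReal_eq_zero]; positivity) hz
        · rw [Metric.mem_ball, hx, dist_zero_right, norm_smul,
            Complex.norm_real, Real.norm_of_nonneg (by positivity), div_mul_cancel₀ _ hz0.ne']
          linarith
      · exact ⟨x₀, hx, Metric.mem_ball_self (by positivity)⟩
    obtain ⟨l, hl⟩ := hd.exists_mem_open hop hne
    refine ⟨l, hl.1, ?_⟩
    have := hl.2
    rwa [Metric.mem_ball, dist_eq_norm] at this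
  have hX0 : 0 < ‖d l‖ := norm_pos_iff.2 hl0
  set ε' := min (ε / 2) (‖d l‖) with hε'
  have hε'0 : 0 < ε' := lt_min (by positivity) hX0
  set δ : ℕ → ℝ := fun k => ε' / 2 / 2 / 2 ^ k with hδ
  have hδ0 : ∀ k, 0 < δ k := fun k => by simp only [hδ]; positivity
  choose a ha1 ha2 ha3 using fun k => exists_rho'' hq (δ := δ k / 2) (by have := hδ0 k; positivity)
  -- the first functional
  obtain ⟨j0, hj0, hj0'⟩ : ∃ j0, ‖d' j0‖ * ‖d l‖ < rr (a 0) ∧ d' j0 (d l) ≠ 0 := by
    have hop : IsOpen ({y : StrongDual ℂ E | ‖y‖ * ‖d l‖ < rr (a 0)} ∩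
        {y : StrongDual ℂ E | y (d l) ≠ 0}) := by
      refine IsOpen.inter (isOpen_lt (continuous_norm.mul continuous_const) continuous_const) ?_
      have hc : Continuous fun y : StrongDual ℂ E => y (d l) :=
        (ContinuousLinearMap.apply ℂ ℂ (d l)).continuous
      exact isOpen_ne.preimage hc
    have hne : ({y : StrongDual ℂ E | ‖y‖ * ‖d l‖ < rr (a 0)} ∩
        {y : StrongDual ℂ E | y (d l) ≠ 0}).Nonempty := by
      obtain ⟨y1, hy1, hy1'⟩ := exists_dual_vector ℂ (d l) hX0.ne'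
      set s : ℝ := rr (a 0) / (2 * ‖d l‖) with hs
      have hs0 : 0 < s := by have := hrr0 (a 0); positivity
      refine ⟨(s : ℂ) • y1, ?_, ?_⟩
      · show ‖(s : ℂ) • y1‖ * ‖d l‖ < rr (a 0)
        rw [norm_smul, hy1, mul_one, Complex.norm_real, Real.norm_of_nonneg hs0.le, hs]
        have := hrr0 (a 0)
        rw [div_mul_eq_mul_div, div_lt_iff₀ (by positivity)]
        nlinarith
      · show ((s : ℂ) • y1) (d l) ≠ 0
        rw [_root_.smul_apply, hy1', smul_eq_mul]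
        refine mul_ne_zero (by rw [Ne, Complex.ofReal_eq_zero]; exact hs0.ne') ?_
        exact Complex.ofReal_ne_zero.2 hX0.ne'
    obtain ⟨j0, h1, h2⟩ := hd'.exists_mem_open hop hne
    exact ⟨j0, h1, h2⟩
  set τ : ℝ := ‖d' j0 (d l)‖ / 2 with hτ
  have hτ0 : 0 < τ := by have := norm_pos_iff.2 hj0'; positivity
  have hinit : w ∈ U l j0 (rr (a 0)) := by
    have : HS Φ (d l) (d' j0) (rr (a 0)) = Set.univ := by
      rw [Set.eq_univ_iff_forall]
      intro v
      exact (HC.top (Φ v) (d l) (d' j0)).mono hj0.le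
    simp only [hU]
    rw [this, interior_univ]
    trivial
  -- one step
  have hstep : ∀ k (v : {v : ℕ × ℕ // w ∈ U v.1 v.2 (rr (a k))}),
      ∃ v' : {v : ℕ × ℕ // w ∈ U v.1 v.2 (rr (a (k + 1)))},
        ‖d v'.1.1 - d v.1.1‖ ≤ δ k ∧ ‖d' v'.1.2 - d' v.1.2‖ ≤ δ k ∧
        ‖d' v'.1.2 (d l) - d' v.1.2 (d l)‖ ≤ τ / 2 / 2 ^ k := by
    rintro k ⟨⟨i, j⟩, hij⟩
    obtain ⟨b, hb⟩ := exists_nat_one_div_lt (show 0 < min (min (rr (a (k + 1))) (δ k / 2))
      (τ / 2 / 2 ^ k) from lt_min (lt_min (hrr0 _) (by have := hδ0 k; positivity))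
        (by positivity))
    have hb1 : rr b ≤ rr (a (k + 1)) := hb.le.trans ((min_le_left _ _).trans (min_le_left _ _))
    have hb2 : rr b ≤ δ k / 2 := hb.le.trans ((min_le_left _ _).trans (min_le_right _ _))
    have hb3 : rr b ≤ τ / 2 / 2 ^ k := hb.le.trans (min_le_right _ _)
    rcases hw i j (a k) b l with hwO | hwO
    · simp only [hO, Set.mem_iUnion] at hwO
      obtain ⟨i', j', ⟨h1, h2, h3⟩, h4⟩ := hwO
      refine ⟨⟨(i', j'), ?_⟩, ?_, ?_, h3.trans hb3⟩
      · exact interior_mono (fun v hv => HC.mono hv hb1) h4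
      · have := ha2 k
        refine h1.trans ?_
        simp only [hrr] at this ⊢
        simp only [hrr] at hb2
        linarith
      · have := ha3 k
        refine h2.trans ?_
        simp only [hrr] at this ⊢
        simp only [hrr] at hb2
        linarith
    · exact absurd (subset_closure hij) hwO
  choose F hF1 hF2 hF3 using hstep
  let S : (k : ℕ) → {v : ℕ × ℕ // w ∈ U v.1 v.2 (rr (a k))} := fun k =>
    Nat.rec (motive := fun k => {v : ℕ × ℕ // w ∈ U v.1 v.2 (rr (a k))})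
      ⟨(l, j0), hinit⟩ (fun k v => F k v) k
  have hS0 : (S 0).1 = (l, j0) := rfl
  have hSs : ∀ k, S (k + 1) = F k (S k) := fun k => rfl
  have hx : ∀ k, dist (d (S k).1.1) (d (S (k + 1)).1.1) ≤ ε' / 2 / 2 / 2 ^ k := by
    intro k
    rw [dist_comm, dist_eq_norm, hSs]
    exact hF1 k (S k)
  have hy : ∀ k, dist (d' (S k).1.2) (d' (S (k + 1)).1.2) ≤ ε' / 2 / 2 / 2 ^ k := by
    intro k
    rw [dist_comm, dist_eq_norm, hSs]
    exact hF2 k (S k)
  have hz : ∀ k, dist (d' (S k).1.2 (d l)) (d' (S (k + 1)).1.2 (d l)) ≤ τ / 2 / 2 ^ k := by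
    intro k
    rw [dist_comm, dist_eq_norm, hSs]
    exact hF3 k (S k)
  obtain ⟨x, hxl⟩ := cauchySeq_tendsto_of_complete (cauchySeq_of_le_geometric_two hx)
  obtain ⟨y, hyl⟩ := cauchySeq_tendsto_of_complete (cauchySeq_of_le_geometric_two hy)
  have hyx₀ : Tendsto (fun k => d' (S k).1.2 (d l)) atTop (𝓝 (y (d l))) :=
    ((ContinuousLinearMap.apply ℂ ℂ (d l)).continuous.tendsto y).comp hyl
  have h1 := dist_le_of_le_geometric_two_of_tendsto₀ hx hxl
  have h2 := dist_le_of_le_geometric_two_of_tendsto₀ hz hyx₀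
  rw [hS0] at h1 h2
  simp only at h1 h2
  rw [dist_comm, dist_eq_norm] at h1
  rw [dist_comm, dist_eq_norm] at h2
  have h1a : ‖x - d l‖ ≤ ε / 4 := by
    have := min_le_left (ε / 2) ‖d l‖
    rw [← hε'] at this
    linarith
  have h1b : ‖x - d l‖ ≤ ‖d l‖ / 2 := by
    have := min_le_right (ε / 2) ‖d l‖
    rw [← hε'] at this
    linarith
  refine ⟨x, y, ?_, ?_, ?_, ?_⟩
  · intro hx0
    rw [hx0, zero_sub, norm_neg] at h1b
    linarith
  · have e : x - x₀ = (x - d l) + (d l - x₀) := by abel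
    rw [e]
    refine (norm_add_le _ _).trans_lt ?_
    linarith
  · intro hy0
    rw [hy0, _root_.zero_apply, zero_sub, norm_neg] at h2
    rw [hτ] at h2
    have := norm_pos_iff.2 hj0'
    linarith
  · -- contractions in the commutant
    have hcontr : ∀ R : E →L[ℂ] E, R * T = T * R → ‖R‖ ≤ 1 → y (R x) = 0 := by
      intro R hR hR1
      have h3 : Tendsto (fun k => d' (S k).1.2 (R (d (S k).1.1))) atTop (𝓝 (y (R x))) := by
        have hc : Continuous fun v : StrongDual ℂ E × E => v.1 (R v.2) :=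
          isBoundedBilinearMap_apply.continuous.comp
            (continuous_fst.prodMk (R.continuous.comp continuous_snd))
        exact (hc.tendsto (y, x)).comp (hyl.prodMk_nhds hxl)
      have h4 : Tendsto (fun k => d' (S k).1.2 (R (d (S k).1.1))) atTop (𝓝 0) := by
        apply squeeze_zero_norm (a := δ)
        · intro k
          have h5 : w ∈ HS Φ (d (S k).1.1) (d' (S k).1.2) (rr (a k)) := interior_subset (S k).2
          refine (h5 R hR hR1).trans ((ha1 k).trans ?_)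
          have := hδ0 k
          linarith
        · have := (tendsto_pow_atTop_nhds_zero_of_lt_one (r := (1 / 2 : ℝ)) (by norm_num)
            (by norm_num)).const_mul (ε' / 2 / 2)
          rw [mul_zero] at this
          refine this.congr fun k => ?_
          rw [hδ]
          simp only [one_div, inv_pow]
          rfl
      exact tendsto_nhds_unique h3 h4
    intro R hR
    set c : ℝ := (‖R‖ + 1)⁻¹ with hc
    have hc0 : 0 < c := by positivity
    have h5 := hcontr ((c : ℂ) • R) (by rw [smul_mul_assoc, mul_smul_comm, hR]) (by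
      rw [norm_smul, Complex.norm_real, Real.norm_of_nonneg hc0.le, hc, inv_mul_le_iff₀
        (by positivity)]
      linarith)
    rw [_root_.smul_apply, map_smul, smul_eq_mul] at h5
    rcases mul_eq_zero.1 h5 with h6 | h6
    · exact absurd (Complex.ofReal_eq_zero.1 h6) hc0.ne'
    · exact h6


end Pool.Agent.Q89.HL
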