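import Pool.Agent.Y280.HTyp

/-!
# Indicator functions in `L_p` of a measure
-/

set_option autoImplicit false
open MeasureTheory Finset Filter Topology
open scoped ENNReal

namespace Pool.Agent.Q89.HL
open Pool.Agent.Y280

variable {Ω : Type} [MeasurableSpace Ω] {μ : Measure Ω}

/-- Measurable sets of finite measure. -/
structure FM (μ : Measure Ω) where
  /-- the set -/
  s : Set Ω
  /-- it is measurable and of finite measure -/
  h : MeasurableSet s ∧ μ s ≠ ∞

variable (P : ℝ≥0∞) [hP : Fact (1 ≤ P)]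

/-- The indicator function. -/
noncomputable def ind (A : FM μ) : Lp ℂ P μ := indicatorConstLp P A.2.1 A.2.2 (1 : ℂ)

/-- The integral over a set. -/
noncomputable def intL (A : FM μ) : StrongDual ℂ (Lp ℂ P μ) :=
  LinearMap.mkContinuousOfExistsBound
    { toFun := fun f => ∫ ω in A.1, f ω ∂μ
      map_add' := by
        intro f g
        rw [← integral_add (integrableOn_Lp_of_measure_ne_top f hP.out A.2.2)
          (integrableOn_Lp_of_measure_ne_top g hP.out A.2.2)]
        apply integral_congr_ae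
        filter_upwards [ae_restrict_of_ae (Lp.coeFn_add f g)] with ω h
        rw [h, Pi.add_apply]
      map_smul' := by
        intro c f
        rw [RingHom.id_apply, ← integral_smul]
        apply integral_congr_ae
        filter_upwards [ae_restrict_of_ae (Lp.coeFn_smul c f)] with ω h
        rw [h, Pi.smul_apply] }
    (by
      refine ⟨((μ A.1) ^ (1 - 1 / P.toReal)).toReal, fun f => ?_⟩
      simp only [LinearMap.coe_mk, AddHom.coe_mk]
      have hfin : IsFiniteMeasure (μ.restrict A.1) := ⟨by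
        rw [Measure.restrict_apply_univ]; exact lt_top_iff_ne_top.2 A.2.2⟩
      have h1 : ‖∫ ω in A.1, f ω ∂μ‖ ≤ ∫ ω in A.1, ‖f ω‖ ∂μ := norm_integral_le_integral_norm _
      refine h1.trans ?_
      have h2 := eLpNorm_le_eLpNorm_mul_rpow_measure_univ (μ := μ.restrict A.1) (p := 1) (q := P)
        hP.out (Lp.aestronglyMeasurable f).restrict
      have h3 : eLpNorm f P (μ.restrict A.1) ≤ eLpNorm f P μ := eLpNorm_restrict_le _ _ _ _
      have h4 : ∫ ω in A.1, ‖f ω‖ ∂μ = (eLpNorm f 1 (μ.restrict A.1)).toReal := by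
        rw [eLpNorm_one_eq_lintegral_enorm, integral_norm_eq_lintegral_enorm
          (Lp.aestronglyMeasurable f).restrict]
      rw [h4, Lp.norm_def, ← ENNReal.toReal_mul]
      apply ENNReal.toReal_mono
      · refine ENNReal.mul_ne_top (ENNReal.rpow_ne_top_of_nonneg ?_ A.2.2) (Lp.eLpNorm_ne_top f)
        have : (1 : ℝ) / P.toReal ≤ 1 := by
          by_cases hPt : P = ∞
          · rw [hPt]; simp
          · have h5 : 1 ≤ P.toReal := by
              rw [← ENNReal.toReal_one]
              exact ENNReal.toReal_mono hPt hP.out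
            rw [div_le_one (by linarith)]
            exact h5
        linarith
      · rw [mul_comm]
        refine h2.trans ?_
        rw [Measure.restrict_apply_univ, ENNReal.toReal_one, div_one]
        gcongr)

variable {P}

lemma intL_apply (A : FM μ) (f : Lp ℂ P μ) : intL P A f = ∫ ω in A.1, f ω ∂μ := rfl

omit hP in
lemma ind_coe (A : FM μ) : (ind P A : Ω → ℂ) =ᵐ[μ] A.1.indicator fun _ => (1 : ℂ) :=
  indicatorConstLp_coeFn

lemma norm_rpow_eq (hPt : P ≠ ∞) (f : Lp ℂ P μ) :
    ‖f‖ ^ P.toReal = ∫ ω, ‖f ω‖ ^ P.toReal ∂μ := by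
  have hP0 : P ≠ 0 := (zero_lt_one.trans_le hP.out).ne'
  have hp : 0 < P.toReal := ENNReal.toReal_pos hP0 hPt
  have h0 : 0 ≤ ∫ ω, ‖f ω‖ ^ P.toReal ∂μ := integral_nonneg fun ω => by positivity
  rw [Lp.norm_def, (Lp.memLp f).eLpNorm_eq_integral_rpow_norm hP0 hPt,
    ENNReal.toReal_ofReal (by positivity), ← Real.rpow_mul h0, inv_mul_cancel₀ hp.ne',
    Real.rpow_one]

lemma integrable_rpow (hPt : P ≠ ∞) (f : Lp ℂ P μ) :
    Integrable (fun ω => ‖f ω‖ ^ P.toReal) μ :=
  (Lp.memLp f).integrable_norm_rpow (zero_lt_one.trans_le hP.out).ne' hPt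

lemma one_le_p (hPt : P ≠ ∞) : 1 ≤ P.toReal := by
  rw [← ENNReal.toReal_one]
  exact ENNReal.toReal_mono hPt hP.out

lemma intL_le {q : ℝ} (hPt : P ≠ ∞) (hpq : P.toReal.HolderConjugate q) (A : FM μ)
    (f : Lp ℂ P μ) :
    ‖intL P A f‖ ≤ (∫ ω in A.1, ‖f ω‖ ^ P.toReal ∂μ) ^ (1 / P.toReal) *
      μ.real A.1 ^ (1 / q) := by
  have hfin : IsFiniteMeasure (μ.restrict A.1) := ⟨by
    rw [Measure.restrict_apply_univ]; exact lt_top_iff_ne_top.2 A.2.2⟩
  rw [intL_apply]
  refine (norm_integral_le_integral_norm _).trans ?_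
  have h1 := integral_mul_le_Lp_mul_Lq_of_nonneg hpq (μ := μ.restrict A.1)
    (f := fun ω => ‖f ω‖) (g := fun _ => (1 : ℝ)) (Eventually.of_forall fun _ => norm_nonneg _)
    (Eventually.of_forall fun _ => zero_le_one)
    (by rw [ENNReal.ofReal_toReal hPt]; exact (Lp.memLp f).norm.restrict _) (memLp_const _)
  simp only [mul_one, Real.one_rpow] at h1
  refine h1.trans (le_of_eq ?_)
  congr 2
  rw [integral_const, smul_eq_mul, mul_one, measureReal_restrict_apply_univ]

lemma intL_ind (A B : FM μ) : intL P A (ind P B) = (μ.real (A.1 ∩ B.1) : ℂ) := by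
  rw [intL_apply, integral_congr_ae (ae_restrict_of_ae (ind_coe B)),
    integral_indicator B.2.1, Measure.restrict_restrict B.2.1, integral_const,
    measureReal_restrict_apply_univ, Set.inter_comm, Complex.real_smul, mul_one]

lemma norm_ind (hPt : P ≠ ∞) (A : FM μ) : ‖ind P A‖ = μ.real A.1 ^ (1 / P.toReal) := by
  unfold ind
  rw [norm_indicatorConstLp (zero_lt_one.trans_le hP.out).ne' hPt, norm_one, one_mul]

section family

variable {I : Type} [Fintype I]

omit hP in
lemma sum_ind_coe (A : I → FM μ) (u : I → ℂ) :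
    ((∑ i, u i • ind P (A i) : Lp ℂ P μ) : Ω → ℂ) =ᵐ[μ]
      fun ω => ∑ i, (A i).1.indicator (fun _ => u i) ω := by
  have h1 : ((∑ i, u i • ind P (A i) : Lp ℂ P μ) : Ω → ℂ) =ᵐ[μ]
      ∑ i, ((u i • ind P (A i) : Lp ℂ P μ) : Ω → ℂ) := Lp.coeFn_finsetSum _ _
  have h2 : ∀ᵐ ω ∂μ, ∀ i, (u i • ind P (A i) : Lp ℂ P μ) ω =
      (A i).1.indicator (fun _ => u i) ω := by
    rw [ae_all_iff]
    intro i
    filter_upwards [Lp.coeFn_smul (u i) (ind P (A i)), ind_coe (P := P) (A i)] with ω e1 e2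
    rw [e1, Pi.smul_apply, e2]
    by_cases h : ω ∈ (A i).1
    · rw [Set.indicator_of_mem h, Set.indicator_of_mem h, smul_eq_mul, mul_one]
    · rw [Set.indicator_of_notMem h, Set.indicator_of_notMem h, smul_zero]
  filter_upwards [h1, h2] with ω e1 e2
  rw [e1, Finset.sum_apply]
  exact sum_congr rfl fun i _ => e2 i

/-- At most one of the disjoint sets contains a point. -/
lemma sum_indicator_cases {A : I → FM μ} (hA : Pairwise fun i j => Disjoint (A i).1 (A j).1)
    (u : I → ℂ) (ω : Ω) :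
    (∀ i, ω ∉ (A i).1) ∧ ∑ i, (A i).1.indicator (fun _ => u i) ω = 0 ∨
      ∃ i, ω ∈ (A i).1 ∧ (∀ j, j ≠ i → ω ∉ (A j).1) ∧
        ∑ i, (A i).1.indicator (fun _ => u i) ω = u i := by
  classical
  by_cases h : ∃ i, ω ∈ (A i).1
  · obtain ⟨i, hi⟩ := h
    have hj : ∀ j, j ≠ i → ω ∉ (A j).1 := fun j hj hjm =>
      Set.disjoint_left.1 (hA hj) hjm hi
    refine Or.inr ⟨i, hi, hj, ?_⟩
    rw [sum_eq_single i]
    · exact Set.indicator_of_mem hi _
    · intro j _ hj'
      exact Set.indicator_of_notMem (hj j hj') _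
    · intro h'; exact absurd (mem_univ _) h'
  · push Not at h
    exact Or.inl ⟨h, sum_eq_zero fun i _ => Set.indicator_of_notMem (h i) _⟩

lemma norm_sum_ind (hPt : P ≠ ∞) {A : I → FM μ}
    (hA : Pairwise fun i j => Disjoint (A i).1 (A j).1) (u : I → ℂ) :
    ‖∑ i, u i • ind P (A i)‖ ^ P.toReal = ∑ i, ‖u i‖ ^ P.toReal * μ.real (A i).1 := by
  have hp : 0 < P.toReal := zero_lt_one.trans_le (one_le_p hPt)
  rw [norm_rpow_eq hPt]
  have h1 : (fun ω => ‖(∑ i, u i • ind P (A i) : Lp ℂ P μ) ω‖ ^ P.toReal) =ᵐ[μ]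
      fun ω => ∑ i, (A i).1.indicator (fun _ => ‖u i‖ ^ P.toReal) ω := by
    filter_upwards [sum_ind_coe (P := P) A u] with ω e1
    rw [e1]
    rcases sum_indicator_cases hA u ω with ⟨h, h'⟩ | ⟨i, hi, hj, h'⟩
    · rw [h', norm_zero, Real.zero_rpow hp.ne', sum_eq_zero]
      intro i _
      exact Set.indicator_of_notMem (h i) _
    · rw [h', sum_eq_single i]
      · rw [Set.indicator_of_mem hi]
      · intro j _ hj'
        exact Set.indicator_of_notMem (hj j hj') _
      · intro h'; exact absurd (mem_univ _) h'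
  rw [integral_congr_ae h1, integral_finsetSum]
  · refine sum_congr rfl fun i _ => ?_
    rw [integral_indicator_const _ (A i).2.1, smul_eq_mul, mul_comm]
  · intro i _
    exact (integrable_indicator_iff (A i).2.1).2 (integrableOn_const (hs := (A i).2.2))

lemma sum_setIntegral_le (hPt : P ≠ ∞) {A : I → FM μ}
    (hA : Pairwise fun i j => Disjoint (A i).1 (A j).1) (f : Lp ℂ P μ) :
    ∑ i, ∫ ω in (A i).1, ‖f ω‖ ^ P.toReal ∂μ ≤ ‖f‖ ^ P.toReal := by
  rw [norm_rpow_eq hPt, ← integral_iUnion_fintype (fun i => (A i).2.1) hA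
    (fun i => (integrable_rpow hPt f).integrableOn)]
  exact setIntegral_le_integral (integrable_rpow hPt f)
    (Eventually.of_forall fun ω => by positivity)

end family

end Pool.Agent.Q89.HL
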