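import Pool.Agent.Q89.HL.L1

/-!
# Blocks of indicator functions in `L_p`
-/

set_option autoImplicit false
open MeasureTheory Finset Filter Topology
open scoped ENNReal

namespace Pool.Agent.Q89.HL
open Pool.Agent.Y280

variable {Ω : Type} [MeasurableSpace Ω] {μ : Measure Ω} {P : ℝ≥0∞} [hP : Fact (1 ≤ P)]

variable (P) in
/-- The normalized indicator function. -/
noncomputable def eN (A : FM μ) : Lp ℂ P μ :=
  ((μ.real A.1 ^ (-(1 / P.toReal)) : ℝ) : ℂ) • ind P A

variable (P) in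
/-- The normalized integral. -/
noncomputable def kN (q : ℝ) (A : FM μ) : StrongDual ℂ (Lp ℂ P μ) :=
  ((μ.real A.1 ^ (-(1 / q)) : ℝ) : ℂ) • intL P A

lemma rpow_cancel {m p : ℝ} (hm : 0 < m) (hp : 0 < p) : (m ^ (-(1 / p))) ^ p * m = 1 := by
  rw [← Real.rpow_mul hm.le]
  have : -(1 / p) * p = -1 := by field_simp
  rw [this, Real.rpow_neg_one, inv_mul_cancel₀ hm.ne']

lemma cpow_cancel {m p q : ℝ} (hm : 0 < m) (hpq : p.HolderConjugate q) :
    m ^ (-(1 / q)) * (m ^ (-(1 / p)) * m) = 1 := by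
  have h1 : m = m ^ (1 : ℝ) := (Real.rpow_one m).symm
  have h2 : m ^ (-(1 / q)) * (m ^ (-(1 / p)) * m) =
      m ^ (-(1 / q)) * (m ^ (-(1 / p)) * m ^ (1 : ℝ)) := by rw [← h1]
  rw [h2, ← Real.rpow_add hm, ← Real.rpow_add hm]
  have : -(1 / q) + (-(1 / p) + 1) = 0 := by
    have := hpq.inv_add_inv_eq_one
    rw [one_div, one_div]
    linarith
  rw [this, Real.rpow_zero]

lemma norm_kN_le {q : ℝ} (hPt : P ≠ ∞) (hpq : P.toReal.HolderConjugate q) (A : FM μ)
    (f : Lp ℂ P μ) :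
    ‖kN P q A f‖ ≤ (∫ ω in A.1, ‖f ω‖ ^ P.toReal ∂μ) ^ (1 / P.toReal) := by
  have h0 : 0 ≤ ∫ ω in A.1, ‖f ω‖ ^ P.toReal ∂μ := integral_nonneg fun ω => by positivity
  unfold kN
  rw [_root_.smul_apply, norm_smul, Complex.norm_real, Real.norm_of_nonneg (by positivity)]
  have h1 := intL_le hPt hpq A f
  rcases (measureReal_nonneg (μ := μ) (s := A.1)).eq_or_lt with h | h
  · rw [← h, Real.zero_rpow (by
      have := hpq.symm.pos
      exact neg_ne_zero.2 (by positivity)), zero_mul]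
    positivity
  · have h2 : μ.real A.1 ^ (-(1 / q)) * μ.real A.1 ^ (1 / q) = 1 := by
      rw [← Real.rpow_add h, neg_add_cancel, Real.rpow_zero]
    calc μ.real A.1 ^ (-(1 / q)) * ‖intL P A f‖
        ≤ μ.real A.1 ^ (-(1 / q)) * ((∫ ω in A.1, ‖f ω‖ ^ P.toReal ∂μ) ^ (1 / P.toReal) *
          μ.real A.1 ^ (1 / q)) := mul_le_mul_of_nonneg_left h1 (by positivity)
      _ = (∫ ω in A.1, ‖f ω‖ ^ P.toReal ∂μ) ^ (1 / P.toReal) *
          (μ.real A.1 ^ (-(1 / q)) * μ.real A.1 ^ (1 / q)) := by ring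
      _ = _ := by rw [h2, mul_one]

lemma blkN {q : ℝ} (hPt : P ≠ ∞) (hpq : P.toReal.HolderConjugate q) {I : Type} [Fintype I]
    {A : I → FM μ} (hA : Pairwise fun i j => Disjoint (A i).1 (A j).1)
    (hA0 : ∀ i, 0 < μ.real (A i).1) :
    Blk P.toReal (fun i => eN P (A i)) (fun i => kN P q (A i)) := by
  classical
  have hp := hpq.pos
  refine ⟨fun u => ?_, fun f => ?_, fun u i => ?_⟩
  · have e1 : ∑ i, u i • eN P (A i) =
        ∑ i, (u i * ((μ.real (A i).1 ^ (-(1 / P.toReal)) : ℝ) : ℂ)) • ind P (A i) := by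
      refine sum_congr rfl fun i _ => ?_
      unfold eN
      rw [smul_smul]
    rw [e1, norm_sum_ind hPt hA]
    refine le_of_eq (sum_congr rfl fun i _ => ?_)
    rw [norm_mul, Complex.norm_real, Real.norm_of_nonneg (by positivity),
      Real.mul_rpow (norm_nonneg _) (by positivity), mul_assoc, rpow_cancel (hA0 i) hp, mul_one]
  · refine le_trans (sum_le_sum fun i _ => ?_) (sum_setIntegral_le hPt hA f)
    have h0 : 0 ≤ ∫ ω in (A i).1, ‖f ω‖ ^ P.toReal ∂μ := integral_nonneg fun ω => by positivity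
    have h1 := Real.rpow_le_rpow (norm_nonneg _) (norm_kN_le hPt hpq (A i) f) hp.le
    rwa [← Real.rpow_mul h0, one_div_mul_cancel hp.ne', Real.rpow_one] at h1
  · rw [map_sum, sum_eq_single i]
    · unfold eN kN
      rw [map_smul, map_smul, _root_.smul_apply, intL_ind, Set.inter_self, smul_eq_mul,
        smul_eq_mul, smul_eq_mul]
      have h1 := cpow_cancel (hA0 i) hpq
      have h2 : ((μ.real (A i).1 ^ (-(1 / q)) : ℝ) : ℂ) *
          (((μ.real (A i).1 ^ (-(1 / P.toReal)) : ℝ) : ℂ) * (μ.real (A i).1 : ℂ)) = 1 := by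
        exact_mod_cast h1
      linear_combination (u i) * h2
    · intro j _ hj
      unfold eN kN
      rw [map_smul, map_smul, _root_.smul_apply, intL_ind, (hA hj.symm).inter_eq,
        measureReal_empty]
      simp
    · intro h'; exact absurd (mem_univ _) h'

/-- The normalized indicator functions depend continuously on the set. -/
lemma exists_near_eN (hPt : P ≠ ∞) (A : FM μ) (hA : 0 < μ.real A.1) {ε : ℝ} (hε : 0 < ε) :
    ∃ δ > 0, ∀ B C : FM μ, A.1 = B.1 ∪ C.1 → Disjoint B.1 C.1 → μ.real C.1 ≤ δ →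
      0 < μ.real B.1 ∧ ‖eN P B - eN P A‖ ≤ ε := by
  have hp : 0 < P.toReal := zero_lt_one.trans_le (one_le_p hPt)
  set m := μ.real A.1 with hm
  set p := P.toReal with hpdef
  -- the estimate
  have key : ∀ B C : FM μ, A.1 = B.1 ∪ C.1 → Disjoint B.1 C.1 →
      ‖eN P B - eN P A‖ ≤ |μ.real B.1 ^ (-(1 / p)) - m ^ (-(1 / p))| * μ.real B.1 ^ (1 / p) +
        m ^ (-(1 / p)) * μ.real C.1 ^ (1 / p) := by
    intro B C hBC hd
    have e1 : ind P A = ind P B + ind P C := by
      apply Lp.ext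
      filter_upwards [ind_coe (P := P) A, ind_coe (P := P) B, ind_coe (P := P) C,
        Lp.coeFn_add (ind P B) (ind P C)] with ω h1 h2 h3 h4
      rw [h1, h4, Pi.add_apply, h2, h3, hBC, Set.indicator_union_of_disjoint hd]
    have e2 : eN P B - eN P A = ((μ.real B.1 ^ (-(1 / p)) - m ^ (-(1 / p)) : ℝ) : ℂ) • ind P B -
        ((m ^ (-(1 / p)) : ℝ) : ℂ) • ind P C := by
      unfold eN
      rw [e1, smul_add, Complex.ofReal_sub, sub_smul]
      abel
    rw [e2]
    refine (norm_sub_le _ _).trans ?_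
    rw [norm_smul, norm_smul, Complex.norm_real, Complex.norm_real, norm_ind hPt, norm_ind hPt,
      Real.norm_eq_abs, Real.norm_of_nonneg (by positivity : (0 : ℝ) ≤ m ^ (-(1 / p)))]
  have hadd : ∀ B C : FM μ, A.1 = B.1 ∪ C.1 → Disjoint B.1 C.1 →
      μ.real B.1 = m - μ.real C.1 := by
    intro B C hBC hd
    rw [hm, hBC, measureReal_union hd C.2.1 B.2.2 C.2.2]
    ring
  -- the limit
  have hlim : Tendsto (fun s : ℝ => |(m - s) ^ (-(1 / p)) - m ^ (-(1 / p))| *
      (m - s) ^ (1 / p) + m ^ (-(1 / p)) * s ^ (1 / p)) (𝓝 0) (𝓝 0) := by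
    have c1 : ContinuousAt (fun s : ℝ => (m - s) ^ (-(1 / p))) 0 := by
      refine ContinuousAt.rpow_const (by fun_prop) (Or.inl ?_)
      rw [sub_zero]
      exact hA.ne'
    have c2 : ContinuousAt (fun s : ℝ => (m - s) ^ (1 / p)) 0 :=
      ContinuousAt.rpow_const (by fun_prop) (Or.inr (by positivity))
    have c3 : ContinuousAt (fun s : ℝ => s ^ (1 / p)) 0 :=
      ContinuousAt.rpow_const (by fun_prop) (Or.inr (by positivity))
    have c4 : ContinuousAt (fun s : ℝ => |(m - s) ^ (-(1 / p)) - m ^ (-(1 / p))| *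
      (m - s) ^ (1 / p) + m ^ (-(1 / p)) * s ^ (1 / p)) 0 :=
      ((c1.sub continuousAt_const).abs.mul c2).add (continuousAt_const.mul c3)
    have h1 := c4.tendsto
    have e0 : (0 : ℝ) ^ (1 / p) = 0 := Real.zero_rpow (by positivity)
    rwa [sub_zero, sub_self, abs_zero, zero_mul, e0, mul_zero, add_zero] at h1
  obtain ⟨δ, hδ, h⟩ := Metric.eventually_nhds_iff.1 ((hlim.eventually (gt_mem_nhds hε)))
  refine ⟨min (δ / 2) (m / 2), lt_min (by positivity) (by positivity), fun B C hBC hd hC => ?_⟩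
  have hC0 : 0 ≤ μ.real C.1 := measureReal_nonneg
  have hC1 : μ.real C.1 ≤ δ / 2 := hC.trans (min_le_left _ _)
  have hC2 : μ.real C.1 ≤ m / 2 := hC.trans (min_le_right _ _)
  have hB := hadd B C hBC hd
  refine ⟨by rw [hB]; linarith, (key B C hBC hd).trans ?_⟩
  have h1 := h (y := μ.real C.1) (by
    rw [Real.dist_eq, sub_zero, abs_of_nonneg hC0]
    linarith)
  rw [hB]
  exact h1.le

lemma norm_intL_le {q : ℝ} (hPt : P ≠ ∞) (hpq : P.toReal.HolderConjugate q) (A : FM μ) :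
    ‖intL P A‖ ≤ μ.real A.1 ^ (1 / q) := by
  have hp := hpq.pos
  refine ContinuousLinearMap.opNorm_le_bound _ (by positivity) fun f => ?_
  refine (intL_le hPt hpq A f).trans ?_
  rw [mul_comm]
  refine mul_le_mul_of_nonneg_left ?_ (by positivity)
  have h1 : ∫ ω in A.1, ‖f ω‖ ^ P.toReal ∂μ ≤ ‖f‖ ^ P.toReal := by
    rw [norm_rpow_eq hPt]
    exact setIntegral_le_integral (integrable_rpow hPt f)
      (Eventually.of_forall fun ω => by positivity)
  have h0 : 0 ≤ ∫ ω in A.1, ‖f ω‖ ^ P.toReal ∂μ := integral_nonneg fun ω => by positivity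
  have h2 := Real.rpow_le_rpow h0 h1 (show 0 ≤ 1 / P.toReal by positivity)
  rwa [← Real.rpow_mul (norm_nonneg _), mul_one_div_cancel hp.ne', Real.rpow_one] at h2

/-- The normalized integrals depend continuously on the set. -/
lemma exists_near_kN {q : ℝ} (hPt : P ≠ ∞) (hpq : P.toReal.HolderConjugate q) (A : FM μ)
    (hA : 0 < μ.real A.1) {ε : ℝ} (hε : 0 < ε) :
    ∃ δ > 0, ∀ B C : FM μ, A.1 = B.1 ∪ C.1 → Disjoint B.1 C.1 → μ.real C.1 ≤ δ →
      ‖kN P q B - kN P q A‖ ≤ ε := by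
  have hq : 0 < q := hpq.symm.pos
  set m := μ.real A.1 with hm
  have key : ∀ B C : FM μ, A.1 = B.1 ∪ C.1 → Disjoint B.1 C.1 →
      ‖kN P q B - kN P q A‖ ≤ |μ.real B.1 ^ (-(1 / q)) - m ^ (-(1 / q))| * μ.real B.1 ^ (1 / q) +
        m ^ (-(1 / q)) * μ.real C.1 ^ (1 / q) := by
    intro B C hBC hd
    have e1 : intL P A = intL P B + intL P C := by
      ext f
      rw [_root_.add_apply, intL_apply, intL_apply, intL_apply, hBC,
        setIntegral_union hd C.2.1 (integrableOn_Lp_of_measure_ne_top f hP.out B.2.2)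
          (integrableOn_Lp_of_measure_ne_top f hP.out C.2.2)]
    have e2 : kN P q B - kN P q A = ((μ.real B.1 ^ (-(1 / q)) - m ^ (-(1 / q)) : ℝ) : ℂ) •
        intL P B - ((m ^ (-(1 / q)) : ℝ) : ℂ) • intL P C := by
      unfold kN
      rw [e1]
      ext f
      simp only [_root_.sub_apply, _root_.smul_apply, _root_.add_apply, smul_eq_mul, ← hm]
      push_cast
      ring
    rw [e2]
    refine (norm_sub_le _ _).trans ?_
    rw [norm_smul, norm_smul, Complex.norm_real, Complex.norm_real,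
      Real.norm_eq_abs, Real.norm_of_nonneg (by positivity : (0 : ℝ) ≤ m ^ (-(1 / q)))]
    exact add_le_add (mul_le_mul_of_nonneg_left (norm_intL_le hPt hpq B) (abs_nonneg _))
      (mul_le_mul_of_nonneg_left (norm_intL_le hPt hpq C) (by positivity))
  have hadd : ∀ B C : FM μ, A.1 = B.1 ∪ C.1 → Disjoint B.1 C.1 →
      μ.real B.1 = m - μ.real C.1 := by
    intro B C hBC hd
    rw [hm, hBC, measureReal_union hd C.2.1 B.2.2 C.2.2]
    ring
  have hlim : Tendsto (fun s : ℝ => |(m - s) ^ (-(1 / q)) - m ^ (-(1 / q))| *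
      (m - s) ^ (1 / q) + m ^ (-(1 / q)) * s ^ (1 / q)) (𝓝 0) (𝓝 0) := by
    have c1 : ContinuousAt (fun s : ℝ => (m - s) ^ (-(1 / q))) 0 := by
      refine ContinuousAt.rpow_const (by fun_prop) (Or.inl ?_)
      rw [sub_zero]
      exact hA.ne'
    have c2 : ContinuousAt (fun s : ℝ => (m - s) ^ (1 / q)) 0 :=
      ContinuousAt.rpow_const (by fun_prop) (Or.inr (by positivity))
    have c3 : ContinuousAt (fun s : ℝ => s ^ (1 / q)) 0 :=
      ContinuousAt.rpow_const (by fun_prop) (Or.inr (by positivity))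
    have c4 : ContinuousAt (fun s : ℝ => |(m - s) ^ (-(1 / q)) - m ^ (-(1 / q))| *
      (m - s) ^ (1 / q) + m ^ (-(1 / q)) * s ^ (1 / q)) 0 :=
      ((c1.sub continuousAt_const).abs.mul c2).add (continuousAt_const.mul c3)
    have h1 := c4.tendsto
    have e0 : (0 : ℝ) ^ (1 / q) = 0 := Real.zero_rpow (by positivity)
    rwa [sub_zero, sub_self, abs_zero, zero_mul, e0, mul_zero, add_zero] at h1
  obtain ⟨δ, hδ, h⟩ := Metric.eventually_nhds_iff.1 ((hlim.eventually (gt_mem_nhds hε)))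
  refine ⟨min (δ / 2) (m / 2), lt_min (by positivity) (by positivity), fun B C hBC hd hC => ?_⟩
  have hC0 : 0 ≤ μ.real C.1 := measureReal_nonneg
  have hC1 : μ.real C.1 ≤ δ / 2 := hC.trans (min_le_left _ _)
  refine (key B C hBC hd).trans ?_
  have h1 := h (y := μ.real C.1) (by
    rw [Real.dist_eq, sub_zero, abs_of_nonneg hC0]
    linarith)
  rw [hadd B C hBC hd]
  exact h1.le

end Pool.Agent.Q89.HL
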