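import Pool.Agent.Q89.HL.L2

/-!
# Uniform smoothness of `L_p` in the form which is needed
-/

set_option autoImplicit false
open MeasureTheory Finset Filter Topology
open scoped ENNReal

namespace Pool.Agent.Q89.HL
open Pool.Agent.Y280

section scalar

lemma smooth_near {p : ℝ} (hp : 1 < p) {ε : ℝ} (hε : 0 < ε) :
    ∃ δ > 0, ∀ z : ℂ, ‖z‖ ≤ δ → ‖1 + z‖ ^ p ≤ 1 + p * z.re + ε * ‖z‖ := by
  have hd : HasDerivAt (fun x : ℝ => x ^ (p / 2)) (p / 2 * 1 ^ (p / 2 - 1)) 1 :=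
    Real.hasDerivAt_rpow_const (Or.inl one_ne_zero)
  rw [hasDerivAt_iff_isLittleO] at hd
  have hc : 0 < ε / 6 := by positivity
  have h1 := hd.def hc
  obtain ⟨δ, hδ, h⟩ := Metric.eventually_nhds_iff.1 h1
  refine ⟨min (min 1 (δ / 4)) (ε / (3 * p)), by positivity, fun z hz => ?_⟩
  have hz1 : ‖z‖ ≤ 1 := hz.trans ((min_le_left _ _).trans (min_le_left _ _))
  have hz2 : ‖z‖ ≤ δ / 4 := hz.trans ((min_le_left _ _).trans (min_le_right _ _))
  have hz3 : ‖z‖ ≤ ε / (3 * p) := hz.trans (min_le_right _ _)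
  have hz3' : p * ‖z‖ ≤ ε / 3 := by
    rw [le_div_iff₀ (by positivity)] at hz3
    linarith
  have e1 : ‖1 + z‖ ^ 2 = 1 + (2 * z.re + ‖z‖ ^ 2) := by
    rw [← Complex.normSq_eq_norm_sq, ← Complex.normSq_eq_norm_sq, Complex.normSq_apply,
      Complex.normSq_apply]
    simp
    ring
  have e2 : ‖1 + z‖ ^ p = (‖1 + z‖ ^ 2) ^ (p / 2) := by
    rw [← Real.rpow_natCast, ← Real.rpow_mul (norm_nonneg _)]
    congr 1
    push_cast
    ring
  have hre : |z.re| ≤ ‖z‖ := Complex.abs_re_le_norm z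
  have hn := norm_nonneg z
  have habs : |2 * z.re + ‖z‖ ^ 2| ≤ 3 * ‖z‖ := by
    rw [abs_le] at hre ⊢
    constructor
    · nlinarith
    · nlinarith
  have h2 := h (y := ‖1 + z‖ ^ 2) (by
    rw [Real.dist_eq, e1, add_sub_cancel_left]
    linarith)
  rw [← e2, e1, Real.one_rpow, Real.one_rpow, mul_one, add_sub_cancel_left, smul_eq_mul,
    Real.norm_eq_abs, Real.norm_eq_abs] at h2
  have h3 := (le_abs_self _).trans h2
  nlinarith

/-- The remainder in the first order expansion of `‖a + b‖ ^ p`. -/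
lemma smooth_ineq {p : ℝ} (hp : 1 < p) {ε : ℝ} (hε : 0 < ε) :
    ∃ C : ℝ, 0 ≤ C ∧ ∀ (a b : ℂ) (t : ℝ), 0 ≤ t → ‖a + t * b‖ ^ p ≤ ‖a‖ ^ p +
      p * (t * (((‖a‖ ^ (p - 2) : ℝ) : ℂ) * (starRingEnd ℂ) a * b).re) +
        ε * (t * (‖a‖ ^ p + ‖b‖ ^ p)) + C * (t ^ p * ‖b‖ ^ p) := by
  obtain ⟨δ, hδ, h⟩ := smooth_near hp hε
  have hp0 : 0 < p := by linarith
  set C : ℝ := (1 + 1 / δ) ^ p + p * δ ^ (1 - p) + 1 with hC
  have hC0 : 0 ≤ C := by positivity
  -- one variable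
  have one : ∀ z : ℂ, ‖1 + z‖ ^ p ≤ 1 + p * z.re + ε * ‖z‖ + C * ‖z‖ ^ p := by
    intro z
    rcases le_or_gt ‖z‖ δ with hz | hz
    · have := h z hz
      have h0 : 0 ≤ C * ‖z‖ ^ p := by positivity
      linarith
    · have hz0 : 0 < ‖z‖ := hδ.trans hz
      have h1 : ‖1 + z‖ ≤ (1 + 1 / δ) * ‖z‖ := by
        refine (norm_add_le _ _).trans ?_
        rw [norm_one, add_mul, one_mul, add_comm]
        have : 1 ≤ 1 / δ * ‖z‖ := by
          rw [div_mul_eq_mul_div, one_mul, one_le_div hδ]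
          exact hz.le
        linarith
      have h2 : ‖1 + z‖ ^ p ≤ (1 + 1 / δ) ^ p * ‖z‖ ^ p := by
        rw [← Real.mul_rpow (by positivity) (norm_nonneg _)]
        exact Real.rpow_le_rpow (norm_nonneg _) h1 hp0.le
      have h3 : p * ‖z‖ ≤ p * δ ^ (1 - p) * ‖z‖ ^ p := by
        rw [mul_assoc]
        refine mul_le_mul_of_nonneg_left ?_ hp0.le
        have e1 : ‖z‖ = ‖z‖ ^ (1 - p) * ‖z‖ ^ p := by
          rw [← Real.rpow_add hz0, sub_add_cancel, Real.rpow_one]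
        conv_lhs => rw [e1]
        refine mul_le_mul_of_nonneg_right ?_ (by positivity)
        exact Real.rpow_le_rpow_of_nonpos hδ hz.le (by linarith)
      have h4 : -‖z‖ ≤ z.re := (abs_le.1 (Complex.abs_re_le_norm z)).1
      have h5 : 0 ≤ ε * ‖z‖ := by positivity
      have h6 : 0 ≤ ‖z‖ ^ p := by positivity
      rw [hC]
      nlinarith
  refine ⟨C, hC0, fun a b t ht => ?_⟩
  have htb : ‖(t : ℂ) * b‖ = t * ‖b‖ := by
    rw [norm_mul, Complex.norm_real, Real.norm_of_nonneg ht]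
  by_cases ha : a = 0
  · subst ha
    rw [zero_add, norm_zero, Real.zero_rpow hp0.ne', map_zero, mul_zero, zero_mul, Complex.zero_re,
      mul_zero, mul_zero, zero_add, zero_add, zero_add, htb, Real.mul_rpow ht (norm_nonneg _)]
    have h1 : 0 ≤ t ^ p * ‖b‖ ^ p := by positivity
    have h3 : 0 ≤ ε * (t * ‖b‖ ^ p) := by positivity
    have h2 : 1 ≤ C := by
      rw [hC]
      have : 0 ≤ (1 + 1 / δ) ^ p := by positivity
      have : 0 ≤ p * δ ^ (1 - p) := by positivity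
      linarith
    nlinarith
  · have ha0 : 0 < ‖a‖ := norm_pos_iff.2 ha
    have h1 := one ((t : ℂ) * (b / a))
    have e1 : ‖a + t * b‖ ^ p = ‖a‖ ^ p * ‖1 + (t : ℂ) * (b / a)‖ ^ p := by
      rw [← Real.mul_rpow (norm_nonneg _) (norm_nonneg _), ← norm_mul]
      congr 2
      field_simp
    have e2 : ‖a‖ ^ p * ‖b / a‖ ^ p = ‖b‖ ^ p := by
      rw [norm_div, ← Real.mul_rpow (norm_nonneg _) (by positivity), mul_div_cancel₀ _ ha0.ne']
    have e3 : ‖a‖ ^ p * (b / a).re = (((‖a‖ ^ (p - 2) : ℝ) : ℂ) * (starRingEnd ℂ) a * b).re := by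
      have h2 : ‖a‖ ^ p = ‖a‖ ^ (p - 2) * ‖a‖ ^ 2 := by
        rw [← Real.rpow_natCast, ← Real.rpow_add ha0]
        congr 1
        push_cast
        ring
      have h3 : b / a = (starRingEnd ℂ) a * b / ((‖a‖ ^ 2 : ℝ) : ℂ) := by
        rw [div_eq_div_iff ha (by exact_mod_cast (pow_pos ha0 2).ne'),
          ← Complex.normSq_eq_norm_sq, ← Complex.mul_conj]
        ring
      rw [h3, Complex.div_ofReal_re, h2, mul_assoc ((‖a‖ ^ (p - 2) : ℝ) : ℂ), Complex.re_ofReal_mul]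
      field_simp
    have e4 : ‖a‖ ^ p * ‖b / a‖ ≤ ‖a‖ ^ p + ‖b‖ ^ p := by
      have h2 : ‖b / a‖ ≤ 1 + ‖b / a‖ ^ p := by
        rcases le_or_gt ‖b / a‖ 1 with h3 | h3
        · have : 0 ≤ ‖b / a‖ ^ p := by positivity
          linarith
        · have := Real.self_le_rpow_of_one_le h3.le hp.le
          linarith
      have h3 := mul_le_mul_of_nonneg_left h2 (show 0 ≤ ‖a‖ ^ p by positivity)
      rwa [mul_add, mul_one, e2] at h3
    rw [norm_mul, Complex.norm_real, Real.norm_of_nonneg ht, Real.mul_rpow ht (norm_nonneg _),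
      Complex.re_ofReal_mul] at h1
    rw [e1]
    calc ‖a‖ ^ p * ‖1 + (t : ℂ) * (b / a)‖ ^ p
        ≤ ‖a‖ ^ p * (1 + p * (t * (b / a).re) + ε * (t * ‖b / a‖) +
          C * (t ^ p * ‖b / a‖ ^ p)) := mul_le_mul_of_nonneg_left h1 (by positivity)
      _ = ‖a‖ ^ p + p * (t * (‖a‖ ^ p * (b / a).re)) + ε * (t * (‖a‖ ^ p * ‖b / a‖)) +
          C * (t ^ p * (‖a‖ ^ p * ‖b / a‖ ^ p)) := by ring
      _ ≤ _ := by
        rw [e2, e3]
        have := mul_le_mul_of_nonneg_left (mul_le_mul_of_nonneg_left e4 ht) hε.le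
        linarith

end scalar

variable {Ω : Type} [MeasurableSpace Ω] {μ : Measure Ω} {P : ℝ≥0∞} [hP : Fact (1 ≤ P)]

lemma smooth_int (hPt : P ≠ ∞) {ε C : ℝ}
    (hC : ∀ (a b : ℂ) (t : ℝ), 0 ≤ t → ‖a + t * b‖ ^ P.toReal ≤ ‖a‖ ^ P.toReal +
      P.toReal * (t * (((‖a‖ ^ (P.toReal - 2) : ℝ) : ℂ) * (starRingEnd ℂ) a * b).re) +
        ε * (t * (‖a‖ ^ P.toReal + ‖b‖ ^ P.toReal)) + C * (t ^ P.toReal * ‖b‖ ^ P.toReal))
    {I : Type} [Fintype I] {A : I → FM μ}
    (hA : Pairwise fun i j => Disjoint (A i).1 (A j).1) (u : I → ℂ) (f : Lp ℂ P μ)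
    (hf : ∀ i, intL P (A i) f = 0) {t : ℝ} (ht : 0 ≤ t) :
    ‖∑ i, u i • ind P (A i) + (t : ℂ) • f‖ ^ P.toReal ≤ ‖∑ i, u i • ind P (A i)‖ ^ P.toReal +
      ε * (t * (‖∑ i, u i • ind P (A i)‖ ^ P.toReal + ‖f‖ ^ P.toReal)) +
        C * (t ^ P.toReal * ‖f‖ ^ P.toReal) := by
  set p := P.toReal with hp
  set x : Lp ℂ P μ := ∑ i, u i • ind P (A i) with hx
  set g : I → ℂ := fun i => ((‖u i‖ ^ (p - 2) : ℝ) : ℂ) * (starRingEnd ℂ) (u i) with hg
  set G : Ω → ℂ := fun ω => ∑ i, (A i).1.indicator (fun ω => g i * f ω) ω with hG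
  have hGi : ∀ i, Integrable ((A i).1.indicator (fun ω => g i * f ω)) μ := by
    intro i
    rw [integrable_indicator_iff (A i).2.1]
    exact (integrableOn_Lp_of_measure_ne_top f hP.out (A i).2.2).const_mul (g i)
  have hGint : Integrable G μ := integrable_finsetSum _ fun i _ => hGi i
  have hG0 : ∫ ω, G ω ∂μ = 0 := by
    rw [hG, integral_finsetSum _ fun i _ => hGi i]
    refine sum_eq_zero fun i _ => ?_
    rw [integral_indicator (A i).2.1, integral_const_mul]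
    have := hf i
    rw [intL_apply] at this
    rw [this, mul_zero]
  have hGre : ∫ ω, (G ω).re ∂μ = 0 := by
    have := integral_re hGint
    simp only [RCLike.re_eq_complex_re] at this
    rw [this, hG0, Complex.zero_re]
  have hpt : ∀ᵐ ω ∂μ, ‖(x + (t : ℂ) • f : Lp ℂ P μ) ω‖ ^ p ≤ ‖x ω‖ ^ p + p * (t * (G ω).re) +
      ε * (t * (‖x ω‖ ^ p + ‖f ω‖ ^ p)) + C * (t ^ p * ‖f ω‖ ^ p) := by
    filter_upwards [Lp.coeFn_add x ((t : ℂ) • f), Lp.coeFn_smul (t : ℂ) f,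
      sum_ind_coe (P := P) A u] with ω h1 h3 h2
    rw [h1, Pi.add_apply, h3, Pi.smul_apply, smul_eq_mul]
    refine (hC (x ω) (f ω) t ht).trans (le_of_eq ?_)
    congr 5
    rw [h2, hG]
    simp only
    rcases sum_indicator_cases hA u ω with ⟨h, h'⟩ | ⟨i, hi, hj, h'⟩
    · rw [h', map_zero, mul_zero, zero_mul, sum_eq_zero]
      intro i _
      exact Set.indicator_of_notMem (h i) _
    · rw [h', sum_eq_single i]
      · rw [Set.indicator_of_mem hi]
      · intro j _ hj'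
        exact Set.indicator_of_notMem (hj j hj') _
      · intro h'; exact absurd (mem_univ _) h'
  have i1 := integrable_rpow hPt x
  have i2 := integrable_rpow hPt f
  have i3 := integrable_rpow hPt (x + (t : ℂ) • f)
  rw [← hp] at i1 i2 i3
  have i4 : Integrable (fun ω => (G ω).re) μ := hGint.re
  have i5 : Integrable (fun ω => p * (t * (G ω).re)) μ := (i4.const_mul t).const_mul p
  have i6 : Integrable (fun ω => ‖x ω‖ ^ p + ‖f ω‖ ^ p) μ := i1.add i2
  have i7 : Integrable (fun ω => ε * (t * (‖x ω‖ ^ p + ‖f ω‖ ^ p))) μ :=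
    (i6.const_mul t).const_mul ε
  have i8 : Integrable (fun ω => C * (t ^ p * ‖f ω‖ ^ p)) μ := (i2.const_mul _).const_mul C
  have i9 : Integrable (fun ω => ‖x ω‖ ^ p + p * (t * (G ω).re)) μ := i1.add i5
  have i10 : Integrable (fun ω => ‖x ω‖ ^ p + p * (t * (G ω).re) +
      ε * (t * (‖x ω‖ ^ p + ‖f ω‖ ^ p))) μ := i9.add i7
  have i11 : Integrable (fun ω => ‖x ω‖ ^ p + p * (t * (G ω).re) +
      ε * (t * (‖x ω‖ ^ p + ‖f ω‖ ^ p)) + C * (t ^ p * ‖f ω‖ ^ p)) μ := i10.add i8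
  have hmono := integral_mono_ae i3 i11 hpt
  rw [norm_rpow_eq hPt, norm_rpow_eq hPt, norm_rpow_eq hPt]
  refine hmono.trans (le_of_eq ?_)
  rw [integral_add i10 i8, integral_add i9 i7, integral_add i1 i5, integral_const_mul,
    integral_const_mul, integral_const_mul, integral_const_mul, integral_const_mul,
    integral_const_mul, integral_add i1 i2, hGre, mul_zero, mul_zero, add_zero]

/-- A functional is small on the functions whose integrals vanish over the sets where a function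
at which it nearly attains its norm is constant. -/
theorem shrink (hP1 : 1 < P.toReal) (hPt : P ≠ ∞) (y : StrongDual ℂ (Lp ℂ P μ)) {ε' : ℝ}
    (hε' : 0 < ε') :
    ∃ η > 0, ∀ {I : Type} [Fintype I] {A : I → FM μ},
      (Pairwise fun i j => Disjoint (A i).1 (A j).1) → ∀ u : I → ℂ,
      ‖∑ i, u i • ind P (A i)‖ ≤ 1 → ‖y‖ - η ≤ (y (∑ i, u i • ind P (A i))).re →
      ∀ f : Lp ℂ P μ, (∀ i, intL P (A i) f = 0) → ‖y f‖ ≤ ε' * ‖f‖ := by
  set p := P.toReal with hp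
  have hp0 : 0 < p := by linarith
  obtain ⟨C, hC0, hC⟩ := smooth_ineq hP1 (show 0 < ε' / (12 * (‖y‖ + 1)) by positivity)
  -- the parameter
  have hlim : Tendsto (fun t : ℝ => (‖y‖ * C) * t ^ (p - 1)) (𝓝 0) (𝓝 0) := by
    have h1 : ContinuousAt (fun t : ℝ => (‖y‖ * C) * t ^ (p - 1)) 0 :=
      continuousAt_const.mul (ContinuousAt.rpow_const continuousAt_id (Or.inr (by linarith)))
    have h2 := h1.tendsto
    have e0 : (0 : ℝ) ^ (p - 1) = 0 := Real.zero_rpow (by linarith)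
    rwa [e0, mul_zero] at h2
  obtain ⟨t, ht, ht0, ht1⟩ : ∃ t : ℝ, (‖y‖ * C) * t ^ (p - 1) < ε' / 3 ∧ 0 < t ∧ t ≤ 1 := by
    obtain ⟨δ, hδ, h⟩ := Metric.eventually_nhds_iff.1
      (hlim.eventually (gt_mem_nhds (show 0 < ε' / 3 by positivity)))
    refine ⟨min (δ / 2) 1, h ?_, by positivity, min_le_right _ _⟩
    rw [Real.dist_eq, sub_zero, abs_of_pos (by positivity)]
    have := min_le_left (δ / 2) 1
    linarith
  refine ⟨t * ε' / 3, by positivity, ?_⟩
  intro I _ A hA u hx hyx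
  set x : Lp ℂ P μ := ∑ i, u i • ind P (A i) with hxdef
  -- normalized functions
  have key : ∀ f : Lp ℂ P μ, (∀ i, intL P (A i) f = 0) → ‖f‖ ≤ 1 → ‖y f‖ ≤ ε' := by
    intro f hf hf1
    obtain ⟨θ, hθ, hθ'⟩ : ∃ θ : ℂ, ‖θ‖ = 1 ∧ θ * y f = (‖y f‖ : ℂ) := by
      set z := y f
      by_cases hz : z = 0
      · exact ⟨1, by simp, by simp [hz]⟩
      · refine ⟨(starRingEnd ℂ) z / ‖z‖, ?_, ?_⟩
        · simp [hz]
        · have hz' : (‖z‖ : ℂ) ≠ 0 := by simpa using hz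
          rw [div_mul_eq_mul_div, mul_comm, Complex.mul_conj, Complex.normSq_eq_norm_sq]
          push_cast
          field_simp
    set f' : Lp ℂ P μ := θ • f with hf'
    have hf'0 : ∀ i, intL P (A i) f' = 0 := fun i => by rw [hf', map_smul, hf i, smul_zero]
    have hf'n : ‖f'‖ ≤ 1 := by
      rw [hf', norm_smul, hθ, one_mul]
      exact hf1
    have h1 := smooth_int hPt hC hA u f' hf'0 ht0.le
    rw [← hxdef, ← hp] at h1
    have hxp : ‖x‖ ^ p ≤ 1 := Real.rpow_le_one (norm_nonneg _) hx hp0.le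
    have hfp : ‖f'‖ ^ p ≤ 1 := Real.rpow_le_one (norm_nonneg _) hf'n hp0.le
    have htp : t ^ p = t * t ^ (p - 1) := by
      rw [← Real.rpow_one_add' ht0.le (by linarith)]
      congr 1
      ring
    set κ : ℝ := ε' / (12 * (‖y‖ + 1)) with hκ
    have hκ0 : 0 < κ := by positivity
    have hκy : ‖y‖ * κ ≤ ε' / 12 := by
      rw [hκ, mul_div_assoc', div_le_div_iff₀ (by positivity) (by norm_num)]
      have := norm_nonneg y
      nlinarith
    set N := ‖x + (t : ℂ) • f'‖ with hN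
    have hN0 : 0 ≤ N := norm_nonneg _
    have hNp : N ^ p ≤ 1 + 2 * κ * t + C * t ^ p := by
      have h2 : κ * (t * (‖x‖ ^ p + ‖f'‖ ^ p)) ≤ κ * (t * 2) :=
        mul_le_mul_of_nonneg_left (mul_le_mul_of_nonneg_left (by linarith) ht0.le) hκ0.le
      have h3 : C * (t ^ p * ‖f'‖ ^ p) ≤ C * t ^ p := by
        refine mul_le_mul_of_nonneg_left ?_ hC0
        exact mul_le_of_le_one_right (by positivity) hfp
      linarith
    have hN1 : N ≤ 1 + 2 * κ * t + C * t ^ p := by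
      rcases le_or_gt N 1 with h2 | h2
      · have : 0 ≤ 2 * κ * t + C * t ^ p := by positivity
        linarith
      · exact (Real.self_le_rpow_of_one_le h2.le hP1.le).trans hNp
    have hy1 : (y (x + (t : ℂ) • f')).re ≤ ‖y‖ * N :=
      (Complex.re_le_norm _).trans (y.le_opNorm _)
    have hy2 : (y (x + (t : ℂ) • f')).re = (y x).re + t * ‖y f‖ := by
      rw [map_add, map_smul, hf', map_smul, smul_eq_mul, smul_eq_mul, hθ', Complex.add_re,
        ← Complex.ofReal_mul, Complex.ofReal_re]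
    rw [hy2] at hy1
    have hy3 : ‖y‖ * N ≤ ‖y‖ * (1 + 2 * κ * t + C * t ^ p) :=
      mul_le_mul_of_nonneg_left hN1 (norm_nonneg _)
    have hy4 : ‖y‖ * (C * t ^ p) ≤ t * (ε' / 3) := by
      rw [htp]
      calc ‖y‖ * (C * (t * t ^ (p - 1))) = t * (‖y‖ * C * t ^ (p - 1)) := by ring
        _ ≤ t * (ε' / 3) := mul_le_mul_of_nonneg_left ht.le ht0.le
    have hy5 : t * ‖y f‖ ≤ t * ε' := by
      have h6 : ‖y‖ * (2 * κ * t) ≤ t * (ε' / 6) := by
        calc ‖y‖ * (2 * κ * t) = 2 * t * (‖y‖ * κ) := by ring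
          _ ≤ 2 * t * (ε' / 12) := mul_le_mul_of_nonneg_left hκy (by positivity)
          _ = t * (ε' / 6) := by ring
      have h7 : 0 < t * ε' := by positivity
      nlinarith
    exact le_of_mul_le_mul_left hy5 ht0
  intro f hf
  by_cases hf0 : ‖f‖ = 0
  · rw [norm_eq_zero] at hf0
    rw [hf0, map_zero, norm_zero, norm_zero, mul_zero]
  · have hfp : 0 < ‖f‖ := lt_of_le_of_ne (norm_nonneg _) (Ne.symm hf0)
    have h1 := key (((‖f‖⁻¹ : ℝ) : ℂ) • f) (fun i => by rw [map_smul, hf i, smul_zero]) (by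
      rw [norm_smul, Complex.norm_real, Real.norm_of_nonneg (by positivity),
        inv_mul_cancel₀ hf0])
    rw [map_smul, norm_smul, Complex.norm_real, Real.norm_of_nonneg (by positivity),
      inv_mul_le_iff₀ hfp] at h1
    linarith

end Pool.Agent.Q89.HL
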