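import Pool.Agent.Q89.HL.L3

/-!
# Simple functions, approximation and separability of the dual of `L_p`
-/

set_option autoImplicit false
open MeasureTheory Finset Filter Topology TopologicalSpace
open scoped ENNReal

namespace Pool.Agent.Q89.HL
open Pool.Agent.Y280

variable {Ω : Type} [MeasurableSpace Ω] {μ : Measure Ω} {P : ℝ≥0∞} [hP : Fact (1 ≤ P)]

/-- Finite combinations of indicator functions. -/
def Simple (z : Lp ℂ P μ) : Prop :=
  ∃ (I : Type) (_ : Fintype I) (A : I → FM μ) (u : I → ℂ), z = ∑ i, u i • ind P (A i)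

lemma dense_simple (hPt : P ≠ ∞) : Dense {z : Lp ℂ P μ | Simple z} := by
  classical
  have hP0 : P ≠ 0 := (zero_lt_one.trans_le hP.out).ne'
  refine (Lp.simpleFunc.dense (E := ℂ) (μ := μ) hPt).mono ?_
  intro z hz
  obtain ⟨g, rfl⟩ : ∃ g : Lp.simpleFunc ℂ P μ, (g : Lp ℂ P μ) = z := ⟨⟨z, hz⟩, rfl⟩
  set s := Lp.simpleFunc.toSimpleFunc g with hs
  have hsm : MemLp s P μ := Lp.simpleFunc.memLp g
  set F : Finset ℂ := s.range.filter (fun v => v ≠ 0) with hF
  have hF0 : ∀ v ∈ F, v ≠ 0 := fun v hv => (mem_filter.1 hv).2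
  refine ⟨{v : ℂ // v ∈ F}, inferInstance,
    fun v => ⟨s ⁻¹' {v.1}, s.measurableSet_preimage _,
      (SimpleFunc.measure_preimage_lt_top_of_memLp hP0 hPt s hsm v.1 (hF0 v.1 v.2)).ne⟩,
    fun v => v.1, ?_⟩
  apply Lp.ext
  filter_upwards [Lp.simpleFunc.toSimpleFunc_eq_toFun g, sum_ind_coe (P := P) (μ := μ)
    (fun v : {v : ℂ // v ∈ F} => (⟨s ⁻¹' {v.1}, s.measurableSet_preimage _,
      (SimpleFunc.measure_preimage_lt_top_of_memLp hP0 hPt s hsm v.1 (hF0 v.1 v.2)).ne⟩ : FM μ))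
      (fun v => v.1)] with ω h1 h2
  rw [← h1, h2, ← hs]
  by_cases h0 : s ω = 0
  · rw [h0, sum_eq_zero]
    intro v _
    apply Set.indicator_of_notMem
    intro hv
    have h3 : s ω = v.1 := hv
    exact hF0 v.1 v.2 (by rw [← h3, h0])
  · have hmem : s ω ∈ F := mem_filter.2 ⟨SimpleFunc.mem_range_self s ω, h0⟩
    rw [sum_eq_single (⟨s ω, hmem⟩ : {v : ℂ // v ∈ F})]
    · rw [Set.indicator_of_mem]
      rfl
    · intro v _ hv
      apply Set.indicator_of_notMem
      intro hv'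
      apply hv
      have h3 : s ω = v.1 := hv'
      exact Subtype.ext h3.symm
    · intro h'; exact absurd (mem_univ _) h'

omit hP in
/-- A common refinement into disjoint sets of positive measure. -/
lemma refine_sets {K : Type} [Fintype K] (A : K → FM μ) :
    ∃ (J : Type) (_ : Fintype J) (B : J → FM μ),
      (Pairwise fun i j => Disjoint (B i).1 (B j).1) ∧ (∀ j, 0 < μ.real (B j).1) ∧
      ∀ k, ∃ c : J → ℂ, ind P (A k) = ∑ j, c j • ind P (B j) := by
  classical
  set At : Finset K → Set Ω := fun S => {ω | ∀ k, k ∈ S ↔ ω ∈ (A k).1} with hAt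
  have hmeas : ∀ S, MeasurableSet (At S) := by
    intro S
    have : At S = ⋂ k, {ω | k ∈ S ↔ ω ∈ (A k).1} := by
      ext ω
      simp [hAt]
    rw [this]
    refine MeasurableSet.iInter fun k => ?_
    by_cases hk : k ∈ S
    · have : {ω | k ∈ S ↔ ω ∈ (A k).1} = (A k).1 := by
        ext ω
        simp [hk]
      rw [this]
      exact (A k).2.1
    · have : {ω | k ∈ S ↔ ω ∈ (A k).1} = (A k).1ᶜ := by
        ext ω
        simp [hk]
      rw [this]
      exact (A k).2.1.compl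
  have hfin : ∀ S : Finset K, S.Nonempty → μ (At S) ≠ ∞ := by
    rintro S ⟨k, hk⟩
    refine ne_top_of_le_ne_top (A k).2.2 (measure_mono ?_)
    intro ω hω
    exact (hω k).1 hk
  refine ⟨{S : Finset K // S.Nonempty ∧ 0 < μ.real (At S)}, inferInstance,
    fun S => ⟨At S.1, hmeas _, hfin _ S.2.1⟩, ?_, fun S => S.2.2, fun k =>
      ⟨fun S => if k ∈ S.1 then 1 else 0, ?_⟩⟩
  · intro S T hST
    rw [Set.disjoint_left]
    intro ω h1 h2
    apply hST
    apply Subtype.ext
    ext k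
    exact (h1 k).trans (h2 k).symm
  · apply Lp.ext
    have hnull : ∀ᵐ ω ∂μ, ∀ S : Finset K, S.Nonempty → ¬ 0 < μ.real (At S) → ω ∉ At S := by
      rw [ae_all_iff]
      intro S
      by_cases hS : S.Nonempty
      · by_cases h0 : 0 < μ.real (At S)
        · exact Eventually.of_forall fun ω _ h => absurd h0 h
        · have h1 : μ (At S) = 0 := by
            have h2 : μ.real (At S) = 0 := le_antisymm (not_lt.1 h0) measureReal_nonneg
            rw [measureReal_def, ENNReal.toReal_eq_zero_iff] at h2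
            exact h2.resolve_right (hfin S hS)
          have h2 : ∀ᵐ ω ∂μ, ω ∉ At S := measure_eq_zero_iff_ae_notMem.1 h1
          filter_upwards [h2] with ω hω _ _
          exact hω
      · exact Eventually.of_forall fun ω h => absurd h hS
    filter_upwards [ind_coe (P := P) (A k), hnull, sum_ind_coe (P := P) (μ := μ)
      (fun S : {S : Finset K // S.Nonempty ∧ 0 < μ.real (At S)} =>
        (⟨At S.1, hmeas _, hfin _ S.2.1⟩ : FM μ)) (fun S => if k ∈ S.1 then 1 else 0)]
      with ω h1 h2 h3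
    rw [h1, h3]
    set S0 : Finset K := univ.filter (fun k => ω ∈ (A k).1) with hS0
    have hω0 : ω ∈ At S0 := by
      intro j
      simp [hS0]
    by_cases hk : ω ∈ (A k).1
    · have hne : S0.Nonempty := ⟨k, by simp [hS0, hk]⟩
      have hpos : 0 < μ.real (At S0) := by
        by_contra h
        exact h2 S0 hne h hω0
      rw [Set.indicator_of_mem hk, sum_eq_single
        (⟨S0, hne, hpos⟩ : {S : Finset K // S.Nonempty ∧ 0 < μ.real (At S)})]
      · rw [Set.indicator_of_mem hω0]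
        simp [hS0, hk]
      · intro S _ hS
        apply Set.indicator_of_notMem
        intro hω
        apply hS
        apply Subtype.ext
        ext j
        exact (hω j).trans (hω0 j).symm
      · intro h'; exact absurd (mem_univ _) h'
    · rw [Set.indicator_of_notMem hk, sum_eq_zero]
      intro S _
      by_cases hω : ω ∈ At S.1
      · rw [Set.indicator_of_mem hω, if_neg]
        intro hkS
        exact hk ((hω k).1 hkS)
      · exact Set.indicator_of_notMem hω _

omit hP in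
/-- A common refinement for finitely many simple functions. -/
lemma common (Z : Finset (Lp ℂ P μ)) (hZ : ∀ z ∈ Z, Simple z) :
    ∃ (N : ℕ) (B : Fin N → FM μ), (Pairwise fun i j => Disjoint (B i).1 (B j).1) ∧
      (∀ j, 0 < μ.real (B j).1) ∧ ∀ z ∈ Z, ∃ c : Fin N → ℂ, z = ∑ j, c j • ind P (B j) := by
  classical
  choose I hI A u hz using fun z : {z // z ∈ Z} => hZ z.1 z.2
  obtain ⟨J, hJ, B, hB1, hB2, hB3⟩ := refine_sets (P := P)
    (fun k : Σ z : {z // z ∈ Z}, I z => A k.1 k.2)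
  set φ := Fintype.equivFin J with hφ
  refine ⟨Fintype.card J, fun i => B (φ.symm i), ?_, fun i => hB2 _, fun z hz' => ?_⟩
  · intro i j hij
    exact hB1 fun h => hij (φ.symm.injective h)
  · choose c hc using fun i : I ⟨z, hz'⟩ => hB3 ⟨⟨z, hz'⟩, i⟩
    refine ⟨fun j => ∑ i, u ⟨z, hz'⟩ i * c i (φ.symm j), ?_⟩
    have h0 : z = ∑ i, u ⟨z, hz'⟩ i • ind P (A ⟨z, hz'⟩ i) := hz ⟨z, hz'⟩
    have hc' : ∀ i, ind P (A ⟨z, hz'⟩ i) = ∑ j, c i j • ind P (B j) := hc
    have h1 : z = ∑ j, (∑ i, u ⟨z, hz'⟩ i * c i j) • ind P (B j) := by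
      refine h0.trans ?_
      simp only [hc', smul_sum, sum_smul, smul_smul]
      rw [sum_comm]
    refine h1.trans ?_
    exact (φ.symm.sum_comp (fun j => (∑ i, u ⟨z, hz'⟩ i * c i j) • ind P (B j))).symm

section proj

variable {q : ℝ} {I : Type} [Fintype I] {A : I → FM μ}

omit hP in
lemma ind_eq (B : FM μ) (hB : 0 < μ.real B.1) :
    ind P B = ((μ.real B.1 ^ (1 / P.toReal) : ℝ) : ℂ) • eN P B := by
  unfold eN
  rw [smul_smul, ← Complex.ofReal_mul, ← Real.rpow_add hB, add_neg_cancel, Real.rpow_zero,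
    Complex.ofReal_one, one_smul]

/-- The projection fixes the functions which are constant on the sets. -/
lemma proj_fix (hPt : P ≠ ∞) (hpq : P.toReal.HolderConjugate q)
    (hA : Pairwise fun i j => Disjoint (A i).1 (A j).1) (hA0 : ∀ i, 0 < μ.real (A i).1)
    (c : I → ℂ) :
    vecB (fun i => eN P (A i)) (fun i => kN P q (A i) (∑ j, c j • ind P (A j))) =
      ∑ j, c j • ind P (A j) := by
  have hb := blkN hPt hpq hA hA0
  have e1 : ∑ j, c j • ind P (A j) = vecB (fun i => eN P (A i))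
      (fun j => c j * ((μ.real (A j).1 ^ (1 / P.toReal) : ℝ) : ℂ)) := by
    unfold vecB
    refine sum_congr rfl fun j _ => ?_
    rw [ind_eq (A j) (hA0 j), smul_smul]
  rw [e1]
  congr 1
  funext i
  exact hb.k_vecB _ i

lemma fnl_near (hPt : P ≠ ∞) (hpq : P.toReal.HolderConjugate q)
    (hA : Pairwise fun i j => Disjoint (A i).1 (A j).1) (hA0 : ∀ i, 0 < μ.real (A i).1)
    {y : StrongDual ℂ (Lp ℂ P μ)} {ε : ℝ} (hε : 0 ≤ ε)
    (h : ∀ f : Lp ℂ P μ, (∀ i, intL P (A i) f = 0) → ‖y f‖ ≤ ε * ‖f‖) :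
    ‖fnlB (fun i => kN P q (A i)) (fun i => y (eN P (A i))) - y‖ ≤ 2 * ε := by
  have hb := blkN hPt hpq hA hA0
  have hp := hpq.pos
  refine ContinuousLinearMap.opNorm_le_bound _ (by positivity) fun f => ?_
  set R : Lp ℂ P μ := vecB (fun i => eN P (A i)) (fun i => kN P q (A i) f) with hR
  have e1 : (fnlB (fun i => kN P q (A i)) (fun i => y (eN P (A i))) - y) f = y (R - f) := by
    rw [_root_.sub_apply, fnlB_comp, map_sub]
  rw [e1]
  have h0 : ∀ i, intL P (A i) (R - f) = 0 := by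
    intro i
    have h1 : kN P q (A i) (R - f) = 0 := by
      rw [map_sub, hR, hb.k_vecB _ i, sub_self]
    unfold kN at h1
    rw [_root_.smul_apply, smul_eq_mul] at h1
    refine (mul_eq_zero.1 h1).resolve_left ?_
    have := Real.rpow_pos_of_pos (hA0 i) (-(1 / q))
    exact_mod_cast this.ne'
  have hRn : ‖R‖ ≤ ‖f‖ := hb.norm_R hp f
  have h2 : ‖R - f‖ ≤ 2 * ‖f‖ := (norm_sub_le _ _).trans (by linarith)
  calc ‖y (R - f)‖ ≤ ε * ‖R - f‖ := h _ h0
    _ ≤ ε * (2 * ‖f‖) := mul_le_mul_of_nonneg_left h2 hε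
    _ = 2 * ε * ‖f‖ := by ring

end proj

/-- Functions at which a functional nearly attains its norm. -/
lemma attain_open (y : StrongDual ℂ (Lp ℂ P μ)) {η : ℝ} (hη : 0 < η) :
    IsOpen {z : Lp ℂ P μ | ‖z‖ < 1 ∧ ‖y‖ - η < (y z).re} ∧
      {z : Lp ℂ P μ | ‖z‖ < 1 ∧ ‖y‖ - η < (y z).re}.Nonempty := by
  constructor
  · exact (isOpen_lt continuous_norm continuous_const).inter
      (isOpen_lt continuous_const (Complex.continuous_re.comp y.continuous))
  · obtain ⟨x, hx, hyx⟩ := y.exists_lt_apply_of_lt_opNorm (show ‖y‖ - η < ‖y‖ by linarith)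
    obtain ⟨θ, hθ, hθ'⟩ : ∃ θ : ℂ, ‖θ‖ = 1 ∧ θ * y x = (‖y x‖ : ℂ) := by
      set z := y x
      by_cases hz : z = 0
      · exact ⟨1, by simp, by simp [hz]⟩
      · refine ⟨(starRingEnd ℂ) z / ‖z‖, ?_, ?_⟩
        · simp [hz]
        · have hz' : (‖z‖ : ℂ) ≠ 0 := by simpa using hz
          rw [div_mul_eq_mul_div, mul_comm, Complex.mul_conj, Complex.normSq_eq_norm_sq]
          push_cast
          field_simp
    refine ⟨θ • x, ?_, ?_⟩
    · rw [norm_smul, hθ, one_mul]
      exact hx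
    · rw [map_smul, smul_eq_mul, hθ', Complex.ofReal_re]
      exact hyx

/-- **The dual of a separable `L_p` is separable.** -/
theorem sep_dual (hP1 : 1 < P.toReal) (hPt : P ≠ ∞) [SeparableSpace (Lp ℂ P μ)] :
    SeparableSpace (StrongDual ℂ (Lp ℂ P μ)) := by
  classical
  have hpq : P.toReal.HolderConjugate P.toReal.conjExponent :=
    Real.HolderConjugate.conjExponent hP1
  set q := P.toReal.conjExponent with hq
  have hsc : SecondCountableTopology (Lp ℂ P μ) := UniformSpace.secondCountable_of_separable _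
  obtain ⟨D, hDs, hDc, hDd⟩ := (dense_simple (μ := μ) hPt).exists_countable_dense_subset
  have hcount : Countable D := hDc.to_subtype
  have h1 : ∀ d : D, ∃ (N : ℕ) (B : Fin N → FM μ),
      (Pairwise fun i j => Disjoint (B i).1 (B j).1) ∧
      (∀ j, 0 < μ.real (B j).1) ∧ ∃ c : Fin N → ℂ, (d : Lp ℂ P μ) = ∑ j, c j • ind P (B j) := by
    intro d
    obtain ⟨N, B, hB1, hB2, hB3⟩ := common ({(d : Lp ℂ P μ)} : Finset (Lp ℂ P μ)) (by
      intro z hz
      rw [mem_singleton] at hz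
      rw [hz]
      exact hDs d.2)
    exact ⟨N, B, hB1, hB2, hB3 _ (mem_singleton_self _)⟩
  choose N B hB1 hB2 c hc using h1
  set V : D → Set (StrongDual ℂ (Lp ℂ P μ)) := fun d =>
    Set.range fun v : Fin (N d) → ℂ => fnlB (fun i => kN P q (B d i)) v with hV
  have hVs : ∀ d, IsSeparable (V d) := by
    intro d
    apply isSeparable_range
    unfold fnlB
    fun_prop
  have hU : IsSeparable (⋃ d, V d) := IsSeparable.iUnion hVs
  have hcl : closure (⋃ d, V d) = Set.univ := by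
    rw [Set.eq_univ_iff_forall]
    intro y
    rw [Metric.mem_closure_iff]
    intro ε hε
    obtain ⟨η, hη, hs⟩ := shrink hP1 hPt y (show 0 < ε / 3 by positivity)
    obtain ⟨ho, hne⟩ := attain_open y hη
    obtain ⟨d, hd, hdD⟩ := hDd.exists_mem_open ho hne
    have h2 := hc ⟨d, hd⟩
    simp only at h2
    have h3 := hs (hB1 ⟨d, hd⟩) (c ⟨d, hd⟩) (by rw [← h2]; exact hdD.1.le)
      (by rw [← h2]; exact hdD.2.le)
    have h4 := fnl_near hPt hpq (hB1 ⟨d, hd⟩) (hB2 ⟨d, hd⟩) (by positivity) h3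
    refine ⟨fnlB (fun i => kN P q (B ⟨d, hd⟩ i)) (fun i => y (eN P (B ⟨d, hd⟩ i))),
      Set.mem_iUnion.2 ⟨⟨d, hd⟩, ⟨_, rfl⟩⟩, ?_⟩
    rw [dist_comm, dist_eq_norm]
    refine h4.trans_lt ?_
    linarith
  rw [← isSeparable_univ_iff, ← hcl]
  exact hU.closure

end Pool.Agent.Q89.HL
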