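import Pool.Agent.Q89.HL.L4
import Pool.Agent.Q89.HL.K1

/-!
# Blocks with room for copies in `L_p`
-/

set_option autoImplicit false
open MeasureTheory Finset Filter Topology TopologicalSpace
open scoped ENNReal

namespace Pool.Agent.Q89.HL
open Pool.Agent.Y280

variable {Ω : Type} [MeasurableSpace Ω] {μ : Measure Ω} {P : ℝ≥0∞} [hP : Fact (1 ≤ P)]

variable (P) in
/-- Pairs of a normalized indicator function and the corresponding functional. -/
def betaN (q : ℝ) (e : Lp ℂ P μ) (k : StrongDual ℂ (Lp ℂ P μ)) : Prop :=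
  ∃ A : FM μ, 0 < μ.real A.1 ∧ e = eN P A ∧ k = kN P q A

lemma tendsto_setInt {D : ℕ → FM μ} (hD : Pairwise fun i j => Disjoint (D i).1 (D j).1)
    {f : Ω → ℝ} (hf : Integrable f μ) :
    Tendsto (fun l => ∫ ω in (D l).1, f ω ∂μ) atTop (𝓝 0) :=
  (hasSum_integral_iUnion (fun i => (D i).2.1) hD hf.integrableOn).summable.tendsto_atTop_zero

lemma tendsto_kx {q : ℝ} (hPt : P ≠ ∞) (hpq : P.toReal.HolderConjugate q) {D : ℕ → FM μ}
    (hD : Pairwise fun i j => Disjoint (D i).1 (D j).1) (x : Lp ℂ P μ) :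
    Tendsto (fun l => ‖kN P q (D l) x‖) atTop (𝓝 0) := by
  have hp := hpq.pos
  have h1 := tendsto_setInt hD (integrable_rpow hPt x)
  have h2 : Tendsto (fun l => (∫ ω in (D l).1, ‖x ω‖ ^ P.toReal ∂μ) ^ (1 / P.toReal)) atTop
      (𝓝 (0 ^ (1 / P.toReal))) := h1.rpow_const (Or.inr (by positivity))
  rw [Real.zero_rpow (by positivity)] at h2
  exact squeeze_zero (fun _ => norm_nonneg _) (fun l => norm_kN_le hPt hpq (D l) x) h2

lemma tendsto_inter {D : ℕ → FM μ} (hD : Pairwise fun i j => Disjoint (D i).1 (D j).1)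
    (A : FM μ) : Tendsto (fun l => μ.real (A.1 ∩ (D l).1)) atTop (𝓝 0) := by
  have h0 : Integrable (A.1.indicator fun _ => (1 : ℝ)) μ :=
    (integrable_indicator_iff A.2.1).2 (integrableOn_const (hs := A.2.2))
  refine (tendsto_setInt hD h0).congr fun l => ?_
  rw [integral_indicator A.2.1, Measure.restrict_restrict A.2.1, integral_const,
    measureReal_restrict_apply_univ, smul_eq_mul, mul_one]

lemma tendsto_ye {q : ℝ} (hPt : P ≠ ∞) (hpq : P.toReal.HolderConjugate q) {D : ℕ → FM μ}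
    (hD : Pairwise fun i j => Disjoint (D i).1 (D j).1) (hD0 : ∀ i, 0 < μ.real (D i).1)
    (y : StrongDual ℂ (Lp ℂ P μ)) {ε : ℝ} (hε : 0 < ε) :
    ∀ᶠ l in atTop, ‖y (eN P (D l))‖ ≤ ε := by
  have hp := hpq.pos
  have hp1 := hpq.lt
  by_contra hcon
  have hinf : {l | ¬ ‖y (eN P (D l))‖ ≤ ε}.Infinite := by
    intro hfin
    apply hcon
    rw [← Nat.cofinite_eq_atTop]
    exact hfin
  set φ := hinf.natEmbedding with hφ
  have key : ∀ M : ℕ, (M : ℝ) * ε ≤ ‖y‖ * (M : ℝ) ^ (1 / P.toReal) := by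
    intro M
    have hb := blkN hPt hpq (A := fun j : Fin M => D (φ j)) (by
      intro i j hij
      refine hD fun h => hij ?_
      exact Fin.ext (φ.injective (Subtype.ext h))) (fun j => hD0 _)
    have hθ : ∀ j : Fin M, ∃ θ : ℂ, ‖θ‖ = 1 ∧ θ * y (eN P (D (φ j))) =
        (‖y (eN P (D (φ j)))‖ : ℂ) := by
      intro j
      set z := y (eN P (D (φ j)))
      by_cases hz : z = 0
      · exact ⟨1, by simp, by simp [hz]⟩
      · refine ⟨(starRingEnd ℂ) z / ‖z‖, ?_, ?_⟩
        · simp [hz]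
        · have hz' : (‖z‖ : ℂ) ≠ 0 := by simpa using hz
          rw [div_mul_eq_mul_div, mul_comm, Complex.mul_conj, Complex.normSq_eq_norm_sq]
          push_cast
          field_simp
    choose θ hθ1 hθ2 using hθ
    have h1 := hb.norm_vecB_le hp (u := θ) (ρ := (M : ℝ)) (by
      simp [hθ1])
    have h2 : y (vecB (fun j : Fin M => eN P (D (φ j))) θ) =
        ((∑ j : Fin M, ‖y (eN P (D (φ j)))‖ : ℝ) : ℂ) := by
      unfold vecB
      rw [map_sum, Complex.ofReal_sum]
      refine sum_congr rfl fun j _ => ?_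
      rw [map_smul, smul_eq_mul, hθ2]
    have h3 := y.le_opNorm (vecB (fun j : Fin M => eN P (D (φ j))) θ)
    rw [h2, Complex.norm_real, Real.norm_of_nonneg (sum_nonneg fun _ _ => norm_nonneg _)] at h3
    have h4 : (M : ℝ) * ε ≤ ∑ j : Fin M, ‖y (eN P (D (φ j)))‖ := by
      have h5 : ∑ _j : Fin M, ε ≤ ∑ j : Fin M, ‖y (eN P (D (φ j)))‖ :=
        sum_le_sum fun j _ => (not_le.1 (φ j).2).le
      rwa [sum_const, card_univ, Fintype.card_fin, nsmul_eq_mul] at h5
    exact h4.trans (h3.trans (mul_le_mul_of_nonneg_left h1 (norm_nonneg _)))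
  have hpos : 0 < 1 - 1 / P.toReal := by
    rw [sub_pos, div_lt_one hp]
    exact hp1
  have hlim : Tendsto (fun M : ℕ => (M : ℝ) ^ (1 - 1 / P.toReal)) atTop atTop :=
    (tendsto_rpow_atTop hpos).comp tendsto_natCast_atTop_atTop
  obtain ⟨M, hM, hM1⟩ := ((hlim.eventually_gt_atTop (‖y‖ / ε)).and
    (eventually_ge_atTop 1)).exists
  have hM0 : (0 : ℝ) < M := by exact_mod_cast hM1
  have h1 := key M
  have h2 : (M : ℝ) = (M : ℝ) ^ (1 - 1 / P.toReal) * (M : ℝ) ^ (1 / P.toReal) := by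
    rw [← Real.rpow_add hM0, sub_add_cancel, Real.rpow_one]
  rw [div_lt_iff₀ hε] at hM
  have h3 : 0 < (M : ℝ) ^ (1 / P.toReal) := by positivity
  have h4 : (M : ℝ) * ε = (M : ℝ) ^ (1 - 1 / P.toReal) * ε * (M : ℝ) ^ (1 / P.toReal) := by
    conv_lhs => rw [h2]
    ring
  rw [h4] at h1
  have h5 := le_of_mul_le_mul_right h1 h3
  linarith

/-- Room for copies. -/
theorem ext_lp {q : ℝ} (hPt : P ≠ ∞) (hpq : P.toReal.HolderConjugate q) {D : ℕ → FM μ}
    (hD : Pairwise fun i j => Disjoint (D i).1 (D j).1) (hD0 : ∀ i, 0 < μ.real (D i).1)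
    {N : ℕ} {A : Fin N → FM μ} (hA : Pairwise fun i j => Disjoint (A i).1 (A j).1)
    (hA0 : ∀ i, 0 < μ.real (A i).1) :
    ExtK (betaN (μ := μ) P q) P.toReal (fun i => eN P (A i)) (fun i => kN P q (A i)) := by
  classical
  intro n X Y ε hε
  choose δ1 hδ1 h1 using fun i => exists_near_eN hPt (A i) (hA0 i) hε
  choose δ2 hδ2 h2 using fun i => exists_near_kN hPt hpq (A i) (hA0 i) hε
  -- the number of copies
  set M : ℝ := (N : ℝ) * (n + 1) + 1 with hM
  have hM0 : 0 < M := by positivity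
  obtain ⟨K, hK1, hK2, hK3⟩ : ∃ K, (∀ l, K ≤ l → ∀ x ∈ X, ‖kN P q (D l) x‖ ≤ ε) ∧
      (∀ l, K ≤ l → ∀ y ∈ Y, ‖y (eN P (D l))‖ ≤ ε) ∧
      ∀ l, K ≤ l → ∀ i, μ.real ((A i).1 ∩ (D l).1) ≤ min (δ1 i) (δ2 i) / M := by
    have e1 : ∀ᶠ l in atTop, ∀ x ∈ X, ‖kN P q (D l) x‖ ≤ ε := by
      rw [eventually_all_finset]
      intro x _
      exact ((tendsto_kx hPt hpq hD x).eventually (gt_mem_nhds hε)).mono fun _ h => h.le
    have e2 : ∀ᶠ l in atTop, ∀ y ∈ Y, ‖y (eN P (D l))‖ ≤ ε := by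
      rw [eventually_all_finset]
      intro y _
      exact tendsto_ye hPt hpq hD hD0 y hε
    have e3 : ∀ᶠ l in atTop, ∀ i, μ.real ((A i).1 ∩ (D l).1) ≤ min (δ1 i) (δ2 i) / M := by
      rw [eventually_all]
      intro i
      have : 0 < min (δ1 i) (δ2 i) / M := div_pos (lt_min (hδ1 i) (hδ2 i)) hM0
      exact ((tendsto_inter hD (A i)).eventually (gt_mem_nhds this)).mono fun _ h => h.le
    obtain ⟨K, hK⟩ := eventually_atTop.1 (e1.and (e2.and e3))
    exact ⟨K, fun l hl => (hK l hl).1, fun l hl => (hK l hl).2.1, fun l hl => (hK l hl).2.2⟩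
  set κ : Fin N × Fin (n + 1) → ℕ := fun z => K + ((z.2 : ℕ) * N + z.1) with hκ
  have hκi : Function.Injective κ := by
    rintro ⟨i, a⟩ ⟨j, b⟩ hab
    simp only [hκ] at hab
    have hi := i.2
    have hj := j.2
    have h1 : (a : ℕ) * N + i = b * N + j := by omega
    have hN : 0 < N := by omega
    have h2 : (a : ℕ) = b := by
      have e1 : ((a : ℕ) * N + i) / N = a := by
        rw [mul_comm, Nat.mul_add_div hN, Nat.div_eq_of_lt hi, add_zero]
      have e2 : ((b : ℕ) * N + j) / N = b := by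
        rw [mul_comm, Nat.mul_add_div hN, Nat.div_eq_of_lt hj, add_zero]
      rw [← e1, ← e2, h1]
    have h3 : (i : ℕ) = j := by
      rw [h2] at h1
      omega
    rw [Fin.ext h2, Fin.ext h3]
  have hκK : ∀ z, K ≤ κ z := fun z => Nat.le_add_right _ _
  set U : Set Ω := ⋃ z : Fin N × Fin (n + 1), (D (κ z)).1 with hU
  have hUm : MeasurableSet U := MeasurableSet.iUnion fun z => (D (κ z)).2.1
  set B : Fin N → FM μ := fun i => ⟨(A i).1 \ U, (A i).2.1.diff hUm,
    ne_top_of_le_ne_top (A i).2.2 (measure_mono Set.sdiff_subset)⟩ with hB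
  set C : Fin N → FM μ := fun i => ⟨(A i).1 ∩ U, (A i).2.1.inter hUm,
    ne_top_of_le_ne_top (A i).2.2 (measure_mono Set.inter_subset_left)⟩ with hC
  have hBC : ∀ i, (A i).1 = (B i).1 ∪ (C i).1 := fun i => (Set.sdiff_union_inter _ _).symm
  have hBCd : ∀ i, Disjoint (B i).1 (C i).1 := fun i =>
    Set.disjoint_left.2 fun ω h1 h2 => h1.2 h2.2
  have hCs : ∀ i, μ.real (C i).1 ≤ min (δ1 i) (δ2 i) := by
    intro i
    have e1 : (C i).1 = ⋃ z : Fin N × Fin (n + 1), (A i).1 ∩ (D (κ z)).1 := by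
      show (A i).1 ∩ U = _
      rw [hU, Set.inter_iUnion]
    rw [e1]
    refine (measureReal_iUnion_fintype_le _).trans ?_
    refine (sum_le_sum fun z _ => hK3 (κ z) (hκK z) i).trans ?_
    rw [sum_const, card_univ, Fintype.card_prod, Fintype.card_fin, Fintype.card_fin,
      nsmul_eq_mul]
    have h3 : 0 < min (δ1 i) (δ2 i) := lt_min (hδ1 i) (hδ2 i)
    rw [mul_div_assoc', div_le_iff₀ hM0, mul_comm]
    refine mul_le_mul_of_nonneg_left ?_ h3.le
    rw [hM]
    push_cast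
    linarith
  set A' : Fin N × Fin (n + 1) → FM μ := fun z => if z.2 = 0 then B z.1 else D (κ z) with hA'
  have hA'0 : ∀ i, A' (i, 0) = B i := fun i => by simp [hA']
  have hA'a : ∀ i a, a ≠ 0 → A' (i, a) = D (κ (i, a)) := fun i a ha => by simp [hA', ha]
  have hBD : ∀ i z, Disjoint (B i).1 (D (κ z)).1 := by
    intro i z
    rw [Set.disjoint_left]
    intro ω h1 h2
    exact h1.2 (Set.mem_iUnion.2 ⟨z, h2⟩)
  have hdis : Pairwise fun y z => Disjoint (A' y).1 (A' z).1 := by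
    rintro ⟨i, a⟩ ⟨j, b⟩ hne
    by_cases ha : a = 0
    · by_cases hb : b = 0
      · subst ha hb
        rw [hA'0, hA'0]
        have hij : i ≠ j := fun h => hne (by rw [h])
        exact (hA hij).mono Set.sdiff_subset Set.sdiff_subset
      · subst ha
        rw [hA'0, hA'a j b hb]
        exact hBD _ _
    · by_cases hb : b = 0
      · subst hb
        rw [hA'0, hA'a i a ha]
        exact (hBD _ _).symm
      · rw [hA'a i a ha, hA'a j b hb]
        exact hD fun h => hne (hκi h)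
  have hpos : ∀ z, 0 < μ.real (A' z).1 := by
    rintro ⟨i, a⟩
    by_cases ha : a = 0
    · subst ha
      rw [hA'0]
      exact (h1 i (B i) (C i) (hBC i) (hBCd i) ((hCs i).trans (min_le_left _ _))).1
    · rw [hA'a i a ha]
      exact hD0 _
  refine ⟨fun z => eN P (A' z), fun z => kN P q (A' z), blkN hPt hpq hdis hpos,
    fun z => ⟨A' z, hpos z, rfl, rfl⟩, ?_, ?_, ?_, ?_⟩
  · intro i
    simp only [hA'0]
    exact (h1 i (B i) (C i) (hBC i) (hBCd i) ((hCs i).trans (min_le_left _ _))).2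
  · intro i
    simp only [hA'0]
    exact h2 i (B i) (C i) (hBC i) (hBCd i) ((hCs i).trans (min_le_right _ _))
  · intro i a ha x hx
    simp only [hA'a i a ha]
    exact hK1 _ (hκK _) x hx
  · intro i a ha y hy
    simp only [hA'a i a ha]
    exact hK2 _ (hκK _) y hy

/-- **Blocks in `L_p`.** -/
theorem blockSys_lp {q : ℝ} (hPt : P ≠ ∞) (hpq : P.toReal.HolderConjugate q) {D : ℕ → FM μ}
    (hD : Pairwise fun i j => Disjoint (D i).1 (D j).1) (hD0 : ∀ i, 0 < μ.real (D i).1) :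
    BlockSysK (betaN (μ := μ) P q) P.toReal := by
  classical
  have hP1 := hpq.lt
  intro X Y ε hε
  -- approximation of the vectors
  have hx : ∀ x : Lp ℂ P μ, ∃ s, Simple s ∧ ‖s - x‖ ≤ ε / 2 := by
    intro x
    obtain ⟨s, hs, hsx⟩ := (dense_simple (μ := μ) hPt).exists_dist_lt x
      (show (0 : ℝ) < ε / 2 by positivity)
    refine ⟨s, hs, ?_⟩
    rw [← dist_eq_norm, dist_comm]
    exact hsx.le
  choose s hs1 hs2 using hx
  have hy : ∀ y : StrongDual ℂ (Lp ℂ P μ), ∃ z : Lp ℂ P μ, Simple z ∧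
      ∀ {I : Type} [Fintype I] {A : I → FM μ},
      (Pairwise fun i j => Disjoint (A i).1 (A j).1) → ∀ u : I → ℂ,
      z = ∑ i, u i • ind P (A i) →
      ∀ f : Lp ℂ P μ, (∀ i, intL P (A i) f = 0) → ‖y f‖ ≤ ε / 2 * ‖f‖ := by
    intro y
    obtain ⟨η, hη, hsh⟩ := shrink hP1 hPt y (show 0 < ε / 2 by positivity)
    obtain ⟨ho, hne⟩ := attain_open y hη
    obtain ⟨z, hz, hz'⟩ := (dense_simple (μ := μ) hPt).exists_mem_open ho hne
    refine ⟨z, hz, fun hA u hzu => ?_⟩
    refine hsh hA u ?_ ?_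
    · rw [← hzu]; exact hz'.1.le
    · rw [← hzu]; exact hz'.2.le
  choose t ht1 ht2 using hy
  obtain ⟨N, B, hB1, hB2, hB3⟩ := common (X.image s ∪ Y.image t) (by
    intro z hz
    rcases mem_union.1 hz with h | h
    · obtain ⟨x, _, rfl⟩ := mem_image.1 h
      exact hs1 x
    · obtain ⟨y, _, rfl⟩ := mem_image.1 h
      exact ht1 y)
  have hb := blkN hPt hpq hB1 hB2
  refine ⟨N, fun i => eN P (B i), fun i => kN P q (B i), hb, fun i => ⟨B i, hB2 i, rfl, rfl⟩,
    ext_lp hPt hpq hD hD0 hB1 hB2, ?_, ?_⟩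
  · intro x hx
    obtain ⟨c, hc⟩ := hB3 (s x) (mem_union_left _ (mem_image_of_mem _ hx))
    have h1 := proj_fix hPt hpq hB1 hB2 c
    rw [← hc] at h1
    have e1 : vecB (fun i => eN P (B i)) (fun i => kN P q (B i) x) - x =
        (s x - x) - vecB (fun i => eN P (B i)) (fun i => kN P q (B i) (s x - x)) := by
      have e2 : vecB (fun i => eN P (B i)) (fun i => kN P q (B i) (s x - x)) =
          vecB (fun i => eN P (B i)) (fun i => kN P q (B i) (s x)) -
            vecB (fun i => eN P (B i)) (fun i => kN P q (B i) x) := by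
        unfold vecB
        rw [← sum_sub_distrib]
        refine sum_congr rfl fun i _ => ?_
        beta_reduce
        rw [map_sub, sub_smul]
      rw [e2, h1]
      abel
    rw [e1]
    refine (norm_sub_le _ _).trans ?_
    have h2 := hb.norm_R hpq.pos (s x - x)
    have h3 := hs2 x
    linarith
  · intro y hy
    obtain ⟨c, hc⟩ := hB3 (t y) (mem_union_right _ (mem_image_of_mem _ hy))
    have h1 := fnl_near hPt hpq hB1 hB2 (by positivity) (ht2 y hB1 c hc)
    refine h1.trans (le_of_eq ?_)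
    ring

end Pool.Agent.Q89.HL
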