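import Pool.Agent.Q89.HL.L5
import Pool.Agent.Y280.HLp
import Pool.Agent.Y280.CM

/-!
# Classes of contractions of `L_p`
-/

set_option autoImplicit false
open MeasureTheory Finset Filter Topology TopologicalSpace
open scoped ENNReal

namespace Pool.Agent.Q89.HL
open Pool.Agent.Y280

variable {Ω : Type} [MeasurableSpace Ω] {μ : Measure Ω} {P : ℝ≥0∞} [hP : Fact (1 ≤ P)]

/-- A closed convex cone closed under multiplication which contains the nonnegative numbers. -/
structure GoodK (K : Set ℂ) : Prop extends ConeK K where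
  closed : IsClosed K
  convex : Convex ℝ K
  mul : ∀ a ∈ K, ∀ b ∈ K, a * b ∈ K

lemma GoodK.zero {K : Set ℂ} (hK : GoodK K) : (0 : ℂ) ∈ K := by
  have := hK.nonneg 0 le_rfl
  simpa using this

/-- Functions with values in `K`. -/
def InK (K : Set ℂ) (f : Lp ℂ P μ) : Prop := ∀ᵐ ω ∂μ, f ω ∈ K

variable (P μ) in
/-- Contractions which preserve the functions with values in `K`. -/
def Cls (K : Set ℂ) : Set (Lp ℂ P μ →L[ℂ] Lp ℂ P μ) :=
  {T | ‖T‖ ≤ 1 ∧ ∀ f, InK K f → InK K (T f)}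

lemma inK_lim {K : Set ℂ} (hK : IsClosed K) {f : ℕ → Lp ℂ P μ} {f0 : Lp ℂ P μ}
    (hf : Tendsto f atTop (𝓝 f0)) (h : ∀ n, InK K (f n)) : InK K f0 := by
  have h1 : TendstoInMeasure μ (fun n => (f n : Ω → ℂ)) atTop (f0 : Ω → ℂ) :=
    tendstoInMeasure_of_tendsto_Lp hf
  obtain ⟨ns, _, h2⟩ := h1.exists_seq_tendsto_ae
  have h3 : ∀ᵐ ω ∂μ, ∀ n, f n ω ∈ K := ae_all_iff.2 h
  filter_upwards [h2, h3] with ω h4 h5
  exact hK.mem_of_tendsto h4 (Eventually.of_forall fun n => h5 (ns n))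

omit hP in
lemma inK_smul_ind {K : Set ℂ} (hK : GoodK K) {c : ℂ} (hc : c ∈ K) (A : FM μ) :
    InK K (c • ind P A) := by
  unfold InK
  filter_upwards [Lp.coeFn_smul c (ind P A), ind_coe (P := P) A] with ω h1 h2
  rw [h1, Pi.smul_apply, h2]
  by_cases h : ω ∈ A.1
  · rw [Set.indicator_of_mem h, smul_eq_mul, mul_one]
    exact hc
  · rw [Set.indicator_of_notMem h, smul_zero]
    exact hK.zero

omit hP in
lemma inK_sum {K : Set ℂ} (hK : GoodK K) {I : Type} (s : Finset I) (f : I → Lp ℂ P μ)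
    (h : ∀ i ∈ s, InK K (f i)) : InK K (∑ i ∈ s, f i) := by
  classical
  induction s using Finset.induction_on with
  | empty =>
    rw [sum_empty]
    unfold InK
    filter_upwards [Lp.coeFn_zero ℂ P μ] with ω h1
    rw [h1]
    exact hK.zero
  | insert a s ha ih =>
    rw [sum_insert ha]
    have h1 := h a (mem_insert_self _ _)
    have h2 := ih fun i hi => h i (mem_insert_of_mem hi)
    unfold InK at h1 h2 ⊢
    filter_upwards [h1, h2, Lp.coeFn_add (f a) (∑ i ∈ s, f i)] with ω e1 e2 e3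
    rw [e3, Pi.add_apply]
    exact hK.add _ e1 _ e2

lemma intL_mem {K : Set ℂ} (hK : GoodK K) {f : Lp ℂ P μ} (hf : InK K f) (B : FM μ) :
    intL P B f ∈ K := by
  rw [intL_apply]
  by_cases h0 : μ B.1 = 0
  · rw [Measure.restrict_eq_zero.2 h0, integral_zero_measure]
    exact hK.zero
  · have h1 : ⨍ ω in B.1, f ω ∂μ ∈ K :=
      hK.convex.set_average_mem hK.closed h0 B.2.2 (ae_restrict_of_ae hf)
        (integrableOn_Lp_of_measure_ne_top f hP.out B.2.2)
    have h2 : ∫ ω in B.1, f ω ∂μ = (μ.real B.1 : ℂ) * ⨍ ω in B.1, f ω ∂μ := by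
      rw [setAverage_eq, Complex.real_smul, ← mul_assoc, ← Complex.ofReal_mul,
        mul_inv_cancel₀, Complex.ofReal_one, one_mul]
      intro h
      rw [measureReal_def, ENNReal.toReal_eq_zero_iff] at h
      exact h.elim h0 B.2.2
    rw [h2]
    exact hK.smul _ measureReal_nonneg _ h1

lemma kN_mem {K : Set ℂ} (hK : GoodK K) {q : ℝ} {f : Lp ℂ P μ} (hf : InK K f) (B : FM μ) :
    kN P q B f ∈ K := by
  unfold kN
  rw [_root_.smul_apply, smul_eq_mul]
  exact hK.smul _ (by positivity) _ (intL_mem hK hf B)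

lemma opB_mem {K : Set ℂ} (hK : GoodK K) {q : ℝ} {I : Type} [Fintype I]
    (e : I → Lp ℂ P μ) (k : I → StrongDual ℂ (Lp ℂ P μ)) (hβ : ∀ i, betaN P q (e i) (k i))
    (A : Matrix I I ℂ) (hA : ∀ i j, A i j ∈ K) (f : Lp ℂ P μ) (hf : InK K f) :
    InK K (opB e k A f) := by
  classical
  rw [opB_apply]
  refine inK_sum hK _ _ fun i _ => ?_
  obtain ⟨B, hB, h1, h2⟩ := hβ i
  rw [h1]
  unfold eN
  rw [smul_smul]
  refine inK_smul_ind hK ?_ B
  rw [mul_comm]
  refine hK.smul _ (by positivity) _ ?_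
  -- the coefficient
  have h3 : ∀ s : Finset I, ∑ j ∈ s, A i j * k j f ∈ K := by
    intro s
    induction s using Finset.induction_on with
    | empty => rw [sum_empty]; exact hK.zero
    | insert a s ha ih =>
      rw [sum_insert ha]
      refine hK.add _ ?_ _ ih
      obtain ⟨C, hC, h4, h5⟩ := hβ a
      rw [h5]
      exact hK.mul _ (hA _ _) _ (kN_mem hK hf C)
  exact h3 univ

lemma ballK_lp {K : Set ℂ} (hK : GoodK K) (q : ℝ) :
    @BallK (Lp ℂ P μ) _ _ (Cls μ P K) (sotStar (Cls μ P K)) (betaN P q) K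
      (fun w => (w : Lp ℂ P μ →L[ℂ] Lp ℂ P μ)) := by
  letI : TopologicalSpace (Cls μ P K) := sotStar (Cls μ P K)
  refine ⟨fun w => w.2.1, ?_, ?_, ?_, ?_⟩
  · rintro w e k e' k' ⟨A, hA, rfl, rfl⟩ ⟨B, hB, rfl, rfl⟩
    refine kN_mem hK (w.2.2 _ ?_) B
    unfold eN
    exact inK_smul_ind hK (hK.nonneg _ (by positivity)) A
  · intro I _ e k hβ A hA hn
    exact ⟨⟨opB e k A, hn, opB_mem hK e k hβ A hA⟩, rfl⟩
  · intro v v0 hv
    have hd : Continuous (fun T : Cls μ P K => ((fun x : Lp ℂ P μ =>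
      (T : Lp ℂ P μ →L[ℂ] Lp ℂ P μ) x), (fun y : StrongDual ℂ (Lp ℂ P μ) =>
        y.comp (T : Lp ℂ P μ →L[ℂ] Lp ℂ P μ)))) := continuous_induced_dom
    have h1 := (hd.tendsto v0).comp hv
    refine ⟨fun x => ?_, fun y => ?_⟩
    · exact ((continuous_apply x).comp continuous_fst).continuousAt.tendsto.comp h1
    · exact ((continuous_apply y).comp continuous_snd).continuousAt.tendsto.comp h1
  · intro w O hO hw
    exact sotStar_nhd _ w O hO hw

/-- **Typical contractions of `L_p` and their commutants.** -/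
theorem typ_lp (hP1 : 1 < P) (hPt : P ≠ ∞) (hsep : SeparableSpace (Lp ℂ P μ)) {D : ℕ → FM μ}
    (hD : Pairwise fun i j => Disjoint (D i).1 (D j).1) (hD0 : ∀ i, 0 < μ.real (D i).1)
    {K : Set ℂ} (hK : GoodK K) :
    (Cls μ P K).Nonempty ∧ @IsCompletelyMetrizableSpace (Cls μ P K) (sotStar (Cls μ P K)) ∧
      @BaireSpace (Cls μ P K) (sotStar (Cls μ P K)) ∧
      {T : Cls μ P K | DenselyHyperinvariant (T : Lp ℂ P μ →L[ℂ] Lp ℂ P μ)} ∈
        @residual (Cls μ P K) (sotStar (Cls μ P K)) := by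
  have hp1 : 1 < P.toReal := by
    rw [← ENNReal.toReal_one]
    exact (ENNReal.toReal_lt_toReal ENNReal.one_ne_top hPt).2 hP1
  have hpq := Real.HolderConjugate.conjExponent hp1
  have hsd := sep_dual (μ := μ) hp1 hPt
  have hnt : Nontrivial (Lp ℂ P μ) := ⟨ind P (D 0), 0, fun h0 => by
    have h1 := norm_ind hPt (D 0)
    rw [h0, norm_zero] at h1
    have := Real.rpow_pos_of_pos (hD0 0) (1 / P.toReal)
    linarith⟩
  have hcm : @IsCompletelyMetrizableSpace (Cls μ P K) (sotStar (Cls μ P K)) := by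
    letI : TopologicalSpace (Cls μ P K) := sotStar (Cls μ P K)
    refine cm_abs_star (fun w : Cls μ P K => (w : Lp ℂ P μ →L[ℂ] Lp ℂ P μ)) ⟨rfl⟩
      Subtype.val_injective (fun w => w.2.1) ?_
    intro w T0 hT
    refine ⟨⟨T0, ?_, fun f hf => ?_⟩, rfl⟩
    · refine ContinuousLinearMap.opNorm_le_bound _ zero_le_one fun x => ?_
      refine le_of_tendsto (hT x).norm (Eventually.of_forall fun m => ?_)
      exact ((w m : Lp ℂ P μ →L[ℂ] Lp ℂ P μ).le_opNorm x).trans
        (mul_le_mul_of_nonneg_right (w m).2.1 (norm_nonneg _))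
    · exact inK_lim hK.closed (hT f) fun m => (w m).2.2 f hf
  refine ⟨⟨0, by rw [norm_zero]; exact zero_le_one, fun f _ => ?_⟩, hcm,
    @BaireSpace.of_completelyPseudoMetrizable _ (sotStar (Cls μ P K))
      (@IsCompletelyMetrizableSpace.toIsCompletelyPseudoMetrizableSpace _
        (sotStar (Cls μ P K)) hcm), ?_⟩
  · unfold InK
    filter_upwards [Lp.coeFn_zero ℂ P μ] with ω h1
    have : (0 : Lp ℂ P μ →L[ℂ] Lp ℂ P μ) f = 0 := rfl
    rw [this, h1]
    exact hK.zero
  · letI : TopologicalSpace (Cls μ P K) := sotStar (Cls μ P K)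
    have hfc : FirstCountableTopology (Cls μ P K) := fc_of_cm _ hcm
    have h1 := typ_hypK hpq hK.toConeK (blockSys_lp hPt hpq hD hD0) (ballK_lp hK _)
    exact Filter.mem_of_superset h1 fun T hT => hyp_of_goodH hT

lemma goodK_univ : GoodK Set.univ where
  add := fun _ _ _ _ => trivial
  smul := fun _ _ _ _ => trivial
  nonneg := fun _ _ => trivial
  closed := isClosed_univ
  convex := convex_univ
  mul := fun _ _ _ _ => trivial

lemma goodK_real : GoodK {z : ℂ | z.im = 0} where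
  add := fun a ha b hb => by
    have ha : a.im = 0 := ha
    have hb : b.im = 0 := hb
    show (a + b).im = 0
    rw [Complex.add_im, ha, hb, add_zero]
  smul := fun r _ a ha => by
    have ha : a.im = 0 := ha
    show ((r : ℂ) * a).im = 0
    rw [Complex.im_ofReal_mul, ha, mul_zero]
  nonneg := fun r _ => Complex.ofReal_im r
  closed := isClosed_eq Complex.continuous_im continuous_const
  convex := by
    intro a ha b hb s t _ _ _
    have ha : a.im = 0 := ha
    have hb : b.im = 0 := hb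
    show (s • a + t • b).im = 0
    rw [Complex.add_im, Complex.smul_im, Complex.smul_im, ha, hb, smul_zero, smul_zero, add_zero]
  mul := fun a ha b hb => by
    have ha : a.im = 0 := ha
    have hb : b.im = 0 := hb
    show (a * b).im = 0
    rw [Complex.mul_im, ha, hb, mul_zero, zero_mul, add_zero]

lemma goodK_pos : GoodK {z : ℂ | 0 ≤ z.re ∧ z.im = 0} where
  add := fun a ha b hb => by
    obtain ⟨ha1, ha2⟩ : 0 ≤ a.re ∧ a.im = 0 := ha
    obtain ⟨hb1, hb2⟩ : 0 ≤ b.re ∧ b.im = 0 := hb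
    show 0 ≤ (a + b).re ∧ (a + b).im = 0
    rw [Complex.add_re, Complex.add_im, ha2, hb2, add_zero]
    exact ⟨add_nonneg ha1 hb1, rfl⟩
  smul := fun r hr a ha => by
    obtain ⟨ha1, ha2⟩ : 0 ≤ a.re ∧ a.im = 0 := ha
    show 0 ≤ ((r : ℂ) * a).re ∧ ((r : ℂ) * a).im = 0
    rw [Complex.re_ofReal_mul, Complex.im_ofReal_mul, ha2, mul_zero]
    exact ⟨mul_nonneg hr ha1, rfl⟩
  nonneg := fun r hr => ⟨by rwa [Complex.ofReal_re], Complex.ofReal_im r⟩
  closed := (isClosed_le continuous_const Complex.continuous_re).inter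
    (isClosed_eq Complex.continuous_im continuous_const)
  convex := by
    intro a ha b hb s t hs ht _
    obtain ⟨ha1, ha2⟩ : 0 ≤ a.re ∧ a.im = 0 := ha
    obtain ⟨hb1, hb2⟩ : 0 ≤ b.re ∧ b.im = 0 := hb
    show 0 ≤ (s • a + t • b).re ∧ (s • a + t • b).im = 0
    rw [Complex.add_re, Complex.add_im, Complex.smul_im, Complex.smul_im, Complex.smul_re,
      Complex.smul_re, ha2, hb2, smul_zero, smul_zero, add_zero]
    exact ⟨add_nonneg (mul_nonneg hs ha1) (mul_nonneg ht hb1), rfl⟩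
  mul := fun a ha b hb => by
    obtain ⟨ha1, ha2⟩ : 0 ≤ a.re ∧ a.im = 0 := ha
    obtain ⟨hb1, hb2⟩ : 0 ≤ b.re ∧ b.im = 0 := hb
    show 0 ≤ (a * b).re ∧ (a * b).im = 0
    rw [Complex.mul_re, Complex.mul_im, ha2, hb2, mul_zero, zero_mul, mul_zero, add_zero, sub_zero]
    exact ⟨mul_nonneg ha1 hb1, rfl⟩

end Pool.Agent.Q89.HL
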