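import Pool.Agent.Q89.HL.L4

/-!
# Disjoint sets in an infinite-dimensional `L_p`
-/

set_option autoImplicit false
open MeasureTheory Finset Filter Topology
open scoped ENNReal

namespace Pool.Agent.Q89.HL

variable {Ω : Type} [MeasurableSpace Ω] {μ : Measure Ω} {P : ℝ≥0∞} [hP : Fact (1 ≤ P)]

lemma linInd (hPt : P ≠ ∞) {I : Type} [Fintype I] {A : I → FM μ}
    (hA : Pairwise fun i j => Disjoint (A i).1 (A j).1) (hA0 : ∀ i, 0 < μ.real (A i).1) :
    LinearIndependent ℂ fun i => ind P (A i) := by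
  have hp : 0 < P.toReal := zero_lt_one.trans_le (one_le_p hPt)
  rw [Fintype.linearIndependent_iff]
  intro u hu i
  have h1 := norm_sum_ind hPt hA u
  rw [hu, norm_zero, Real.zero_rpow hp.ne'] at h1
  have h2 := (sum_eq_zero_iff_of_nonneg (fun i _ => by positivity)).1 h1.symm i (mem_univ i)
  have h3 : ‖u i‖ ^ P.toReal = 0 := (mul_eq_zero.1 h2).resolve_right (hA0 i).ne'
  rw [Real.rpow_eq_zero (norm_nonneg _) hp.ne'] at h3
  simpa using h3

/-- Arbitrarily many disjoint sets of positive measure. -/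
lemma exists_many (hPt : P ≠ ∞) (hinf : ¬ FiniteDimensional ℂ (Lp ℂ P μ)) (n : ℕ) :
    ∃ B : Fin n → FM μ, (Pairwise fun i j => Disjoint (B i).1 (B j).1) ∧
      ∀ i, 0 < μ.real (B i).1 := by
  classical
  by_contra hcon
  have hsmall : ∀ m, (∃ B : Fin m → FM μ, (Pairwise fun i j => Disjoint (B i).1 (B j).1) ∧
      ∀ i, 0 < μ.real (B i).1) → m < n := by
    rintro m ⟨B, hB1, hB2⟩
    by_contra hmn
    apply hcon
    refine ⟨fun i => B (Fin.castLE (not_lt.1 hmn) i), fun i j hij => hB1 fun h => hij ?_,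
      fun i => hB2 _⟩
    exact Fin.castLE_injective _ h
  set S : Set ℕ := {m | ∃ B : Fin m → FM μ, (Pairwise fun i j => Disjoint (B i).1 (B j).1) ∧
      ∀ i, 0 < μ.real (B i).1} with hS
  have hSne : S.Nonempty := ⟨0, Fin.elim0, fun i => i.elim0, fun i => i.elim0⟩
  have hSb : BddAbove S := ⟨n, fun m hm => (hsmall m hm).le⟩
  obtain ⟨N, hNS, hmax⟩ : ∃ N ∈ S, ∀ m ∈ S, m ≤ N :=
    ⟨sSup S, Nat.sSup_mem hSne hSb, fun m hm => le_csSup hSb hm⟩
  obtain ⟨B, hB1, hB2⟩ := hNS
  set V : Submodule ℂ (Lp ℂ P μ) := Submodule.span ℂ (Set.range fun i => ind P (B i)) with hV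
  have hVd : FiniteDimensional ℂ V := FiniteDimensional.span_of_finite ℂ (Set.finite_range _)
  have hVr : Module.finrank ℂ V = N := by
    rw [hV, finrank_span_eq_card (linInd hPt hB1 hB2), Fintype.card_fin]
  have hind : ∀ A : FM μ, ind P A ∈ V := by
    intro A
    obtain ⟨J, hJ, C, hC1, hC2, hC3⟩ := refine_sets (P := P)
      (fun k : Option (Fin N) => k.elim A B)
    set W : Submodule ℂ (Lp ℂ P μ) := Submodule.span ℂ (Set.range fun j => ind P (C j)) with hW
    have hWd : FiniteDimensional ℂ W := FiniteDimensional.span_of_finite ℂ (Set.finite_range _)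
    have hmem : ∀ k : Option (Fin N), ind P (k.elim A B) ∈ W := by
      intro k
      obtain ⟨c, hc⟩ := hC3 k
      rw [hc]
      exact Submodule.sum_mem _ fun j _ => Submodule.smul_mem _ _
        (Submodule.subset_span ⟨j, rfl⟩)
    have hVW : V ≤ W := by
      rw [hV, Submodule.span_le]
      rintro _ ⟨i, rfl⟩
      exact hmem (some i)
    have hJN : Fintype.card J ≤ N := by
      apply hmax
      set φ := Fintype.equivFin J
      exact ⟨fun i => C (φ.symm i), fun i j hij => hC1 fun h => hij (φ.symm.injective h),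
        fun i => hC2 _⟩
    have hWr : Module.finrank ℂ W ≤ Module.finrank ℂ V := by
      rw [hVr]
      exact (finrank_range_le_card (fun j => ind P (C j))).trans hJN
    have hVWe : V = W := Submodule.eq_of_le_of_finrank_le hVW hWr
    rw [hVWe]
    exact hmem none
  apply hinf
  have hcl : IsClosed (V : Set (Lp ℂ P μ)) := V.closed_of_finiteDimensional
  have htop : V = ⊤ := by
    rw [Submodule.eq_top_iff']
    intro z
    have h1 : z ∈ closure {z : Lp ℂ P μ | Simple z} := (dense_simple hPt) z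
    have h2 : {z : Lp ℂ P μ | Simple z} ⊆ V := by
      rintro z ⟨I, hI, A, u, rfl⟩
      exact Submodule.sum_mem _ fun i _ => Submodule.smul_mem _ _ (hind _)
    exact closure_minimal h2 hcl h1
  rw [htop] at hVd
  exact Module.finite_def.2 (Module.finite_def.1
    (Module.Finite.equiv (Submodule.topEquiv (R := ℂ) (M := Lp ℂ P μ))))

/-- Sets with arbitrarily many disjoint subsets of positive measure. -/
def Big (μ : Measure Ω) (E : Set Ω) : Prop :=
  ∀ n : ℕ, ∃ B : Fin n → FM μ, (Pairwise fun i j => Disjoint (B i).1 (B j).1) ∧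
    (∀ i, 0 < μ.real (B i).1) ∧ ∀ i, (B i).1 ⊆ E

lemma big_or {E F G : Set Ω} (hF : MeasurableSet F) (hG : MeasurableSet G) (hE : Big μ E)
    (hEFG : E ⊆ F ∪ G) : Big μ F ∨ Big μ G := by
  classical
  by_contra hcon
  push Not at hcon
  obtain ⟨h1, h2⟩ := hcon
  unfold Big at h1 h2
  push Not at h1 h2
  obtain ⟨n1, h1⟩ := h1
  obtain ⟨n2, h2⟩ := h2
  obtain ⟨B, hB1, hB2, hB3⟩ := hE (n1 + n2)
  -- sets which meet a given set in positive measure
  have key : ∀ (H : Set Ω), MeasurableSet H → ∀ m,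
      (∀ B : Fin m → FM μ, (Pairwise fun i j => Disjoint (B i).1 (B j).1) →
        (∀ i, 0 < μ.real (B i).1) → ∃ i, ¬ (B i).1 ⊆ H) →
      (univ.filter fun i => 0 < μ.real ((B i).1 ∩ H)).card < m := by
    intro H hH m hm
    by_contra hc
    obtain ⟨S, hS, hSc⟩ := exists_subset_card_eq (not_lt.1 hc)
    set φ := S.equivFinOfCardEq hSc
    obtain ⟨i, hi⟩ := hm (fun i => ⟨(B (φ.symm i)).1 ∩ H, (B (φ.symm i)).2.1.inter hH,
      ne_top_of_le_ne_top (B (φ.symm i)).2.2 (measure_mono Set.inter_subset_left)⟩)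
      (fun i j hij => (hB1 fun h => hij (φ.symm.injective (Subtype.ext h))).mono
        Set.inter_subset_left Set.inter_subset_left)
      (fun i => (mem_filter.1 (hS (φ.symm i).2)).2)
    exact hi Set.inter_subset_right
  have k1 := key F hF n1 h1
  have k2 := key G hG n2 h2
  have hun : (univ : Finset (Fin (n1 + n2))) ⊆
      (univ.filter fun i => 0 < μ.real ((B i).1 ∩ F)) ∪
        (univ.filter fun i => 0 < μ.real ((B i).1 ∩ G)) := by
    intro i _
    rw [mem_union, mem_filter, mem_filter]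
    by_contra hc
    push Not at hc
    have e1 : μ.real ((B i).1 ∩ F) = 0 :=
      le_antisymm (hc.1 (mem_univ _)) measureReal_nonneg
    have e2 : μ.real ((B i).1 ∩ G) = 0 :=
      le_antisymm (hc.2 (mem_univ _)) measureReal_nonneg
    have e3 : (B i).1 = ((B i).1 ∩ F) ∪ ((B i).1 ∩ G) := by
      rw [← Set.inter_union_distrib_left]
      exact (Set.inter_eq_left.2 ((hB3 i).trans hEFG)).symm
    have e4 : μ.real (B i).1 ≤ μ.real ((B i).1 ∩ F) + μ.real ((B i).1 ∩ G) := by
      conv_lhs => rw [e3]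
      exact measureReal_union_le _ _
    have := hB2 i
    linarith
  have hc := (card_le_card hun).trans (card_union_le _ _)
  rw [card_univ, Fintype.card_fin] at hc
  omega

lemma big_step {E : Set Ω} (hEm : MeasurableSet E) (hE : Big μ E) :
    ∃ B : FM μ, 0 < μ.real B.1 ∧ B.1 ⊆ E ∧ Big μ (E \ B.1) := by
  obtain ⟨B, hB1, hB2, hB3⟩ := hE 2
  have h01 : Disjoint (B 0).1 (B 1).1 := hB1 (by decide)
  have hcov : E ⊆ (E \ (B 0).1) ∪ (E \ (B 1).1) := by
    intro ω hω
    by_cases h0 : ω ∈ (B 0).1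
    · exact Or.inr ⟨hω, fun h1 => Set.disjoint_left.1 h01 h0 h1⟩
    · exact Or.inl ⟨hω, h0⟩
  rcases big_or (hEm.diff (B 0).2.1) (hEm.diff (B 1).2.1) hE hcov with h | h
  · exact ⟨B 0, hB2 0, hB3 0, h⟩
  · exact ⟨B 1, hB2 1, hB3 1, h⟩

/-- **A sequence of disjoint sets of positive measure.** -/
theorem exists_disjoint (hPt : P ≠ ∞) (hinf : ¬ FiniteDimensional ℂ (Lp ℂ P μ)) :
    ∃ D : ℕ → FM μ, (Pairwise fun i j => Disjoint (D i).1 (D j).1) ∧
      ∀ i, 0 < μ.real (D i).1 := by
  classical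
  have h0 : Big μ Set.univ := by
    intro n
    obtain ⟨B, h1, h2⟩ := exists_many hPt hinf n
    exact ⟨B, h1, h2, fun i => Set.subset_univ _⟩
  choose F hF1 hF2 hF3 using fun E : {E : Set Ω // MeasurableSet E ∧ Big μ E} =>
    big_step E.2.1 E.2.2
  let st : ℕ → {E : Set Ω // MeasurableSet E ∧ Big μ E} := fun k =>
    Nat.rec ⟨Set.univ, MeasurableSet.univ, h0⟩
      (fun _ E => ⟨E.1 \ (F E).1, E.2.1.diff (F E).2.1, hF3 E⟩) k
  have hst : ∀ k, (st (k + 1)).1 = (st k).1 \ (F (st k)).1 := fun k => rfl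
  have hanti : ∀ k l, k ≤ l → (st l).1 ⊆ (st k).1 := by
    intro k l hkl
    induction l, hkl using Nat.le_induction with
    | base => exact subset_rfl
    | succ l _ ih =>
      rw [hst]
      exact Set.sdiff_subset.trans ih
  have hdis : ∀ k l, k < l → Disjoint (F (st k)).1 (F (st l)).1 := by
    intro k l hkl
    rw [Set.disjoint_left]
    intro ω h1 h2
    have h3 := hanti (k + 1) l hkl (hF2 (st l) h2)
    rw [hst] at h3
    exact h3.2 h1
  refine ⟨fun k => F (st k), fun k l hkl => ?_, fun k => hF1 _⟩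
  rcases Nat.lt_or_ge k l with h | h
  · exact hdis k l h
  · exact (hdis l k (lt_of_le_of_ne h (Ne.symm hkl))).symm

end Pool.Agent.Q89.HL
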